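import Mathlib
import Pool.Agent.V8H39.SR.Defs

/-!
# Machines with a store which make few turns
-/

set_option autoImplicit false

namespace Pool.Agent.V8H39.SR.Mach

variable {V : Type}

/-- `P.CompT R q s u L t`: starting in the configuration `q` with the store `s` (top first), the
machine has a computation which stops with the answer `true`, in which the bits of the list `L` are
read, in this order (at a bit `v` it may find the value `c` whenever `R v c`), and which makes `t`
turns: `t` times a symbol is taken from the store and the previous operation on the store was to put
a symbol on it. Here `u = true` if the last operation on the store before the computation was to put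
a symbol on it. -/
inductive CompT (P : Mach V) (R : V → Bool → Prop) :
    P.Conf → List P.Γ → Bool → List V → ℕ → Prop
  | halt {q : P.Conf} {s : List P.Γ} {u : Bool} (h : P.act q = Act.halt true) :
      CompT P R q s u [] 0
  | guess {q q' : P.Conf} {s : List P.Γ} {u : Bool} {L : List V} {t : ℕ} {next : Set P.Conf}
      (h : P.act q = Act.guess next) (hq : q' ∈ next) (h' : CompT P R q' s u L t) :
      CompT P R q s u L t
  | read {q : P.Conf} {s : List P.Γ} {u : Bool} {L : List V} {t : ℕ} {v : V}
      {next : Bool → P.Conf} {c : Bool} (h : P.act q = Act.read v next) (hc : R v c)
      (h' : CompT P R (next c) s u L t) : CompT P R q s u (v :: L) t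
  | push {q : P.Conf} {s : List P.Γ} {u : Bool} {L : List V} {t : ℕ} {c : P.Γ} {next : P.Conf}
      (h : P.act q = Act.push c next) (h' : CompT P R next (c :: s) true L t) :
      CompT P R q s u L t
  | pop {q : P.Conf} {s : List P.Γ} {u : Bool} {L : List V} {t : ℕ} {c : P.Γ}
      {next : P.Γ → P.Conf} (h : P.act q = Act.pop next) (h' : CompT P R (next c) s false L t) :
      CompT P R q (c :: s) u L (t + if u = true then 1 else 0)

/-- On the input `x` the machine has a computation with the answer `true` and at most `t` turns. -/
def AcceptsTurns (P : Mach V) (t : ℕ) (x : V → Bool) : Prop :=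
  ∃ L, ∃ t' ≤ t, P.CompT (fun v c => x v = c) P.start [] false L t'

end Pool.Agent.V8H39.SR.Mach
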