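import Mathlib
import Pool.Agent.V8H39.TV.Defs

/-!
# The dimension of a computation with a store

In a computation of a machine with a store each symbol that is put on the store and taken from it
later splits the computation after it in two: the part while the symbol is on the store and the part
after it. So a computation is a binary tree; its dimension is the Strahler number of this tree.
-/

set_option autoImplicit false

namespace Pool.Agent.V8H39.SR.Mach

variable {V : Type}

/-- the dimension of a tree with two parts of dimensions `a` and `b` -/
def join (a b : ℕ) : ℕ := if a = b then a + 1 else max a b

/-- `P.Part R q r L d`: starting in the configuration `q`, the machine has a computation of dimension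
`d`, in which the bits of the list `L` are read, in this order (at a bit `v` it may find the value `c`
whenever `R v c`), which takes from the store only symbols that it has put on it, and which ends in
the configuration `q'` with the store as before if `r = some q'`, and stops with the answer `true` if
`r = none`. The dimension is the Strahler number: it is `0` if no symbol is put on the store and taken
from it. If the first operation on the store puts a symbol on it which is never taken from it
(`opn`), then the dimension is the dimension of the rest. If this symbol is taken from it (`call`),
then the computation consists of the part while the symbol is on the store, of dimension `d₁`, and of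
the part after it, of dimension `d₂`, and has the dimension `d₁ + 1` if `d₁ = d₂`, and otherwise the
larger of `d₁` and `d₂`. -/
inductive Part (P : Mach V) (R : V → Bool → Prop) : P.Conf → Option P.Conf → List V → ℕ → Prop
  | done (q : P.Conf) : Part P R q (some q) [] 0
  | halt {q : P.Conf} (h : P.act q = Act.halt true) : Part P R q none [] 0
  | guess {q q' : P.Conf} {r : Option P.Conf} {L : List V} {d : ℕ} {next : Set P.Conf}
      (h : P.act q = Act.guess next) (hq : q' ∈ next) (h' : Part P R q' r L d) :
      Part P R q r L d
  | read {q : P.Conf} {r : Option P.Conf} {L : List V} {d : ℕ} {v : V} {next : Bool → P.Conf}
      {c : Bool} (h : P.act q = Act.read v next) (hc : R v c) (h' : Part P R (next c) r L d) :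
      Part P R q r (v :: L) d
  | opn {q q' : P.Conf} {c : P.Γ} {L : List V} {d : ℕ} (h : P.act q = Act.push c q')
      (h' : Part P R q' none L d) : Part P R q none L d
  | call {q q₁ q₂ : P.Conf} {c : P.Γ} {next : P.Γ → P.Conf} {r : Option P.Conf}
      {L₁ L₂ : List V} {d₁ d₂ : ℕ} (h : P.act q = Act.push c q₁)
      (h₁ : Part P R q₁ (some q₂) L₁ d₁) (h₂ : P.act q₂ = Act.pop next)
      (h₃ : Part P R (next c) r L₂ d₂) : Part P R q r (L₁ ++ L₂) (join d₁ d₂)

/-- On the input `x` the machine has a computation with the answer `true` and dimension at most
`d`. -/
def AcceptsDim (P : Mach V) (d : ℕ) (x : V → Bool) : Prop :=
  ∃ L, ∃ d' ≤ d, P.Part (fun v c => x v = c) P.start none L d'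

end Pool.Agent.V8H39.SR.Mach
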