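import Mathlib
import Pool.Agent.V8H39.TV.Defs
import Pool.Agent.V8H39.SR.BDefs

/-!
# A store with few turns is not needed

A computation with `t` turns is a tree of balanced parts with `t` leaves. It can be done part by part
such that at each time only `log t` parts are unfinished; each bit is read as often as before.
-/

set_option autoImplicit false

namespace Pool.Agent.V8H39.TV

open Pool.Agent.V8H39.SR

variable {V : Type}

/-- balanced parts (`some`) and parts up to the end (`none`) of computations, with the number of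
turns -/
inductive Seg (P : Mach V) (R : V → Bool → Prop) : P.Conf → Option P.Conf → List V → ℕ → Prop
  | nil (q : P.Conf) : Seg P R q (some q) [] 0
  | halt {q : P.Conf} (h : P.act q = Act.halt true) : Seg P R q none [] 0
  | guess {q q' : P.Conf} {r : Option P.Conf} {L : List V} {p : ℕ} {next : Set P.Conf}
      (h : P.act q = Act.guess next) (hq : q' ∈ next) (h' : Seg P R q' r L p) : Seg P R q r L p
  | read {q : P.Conf} {r : Option P.Conf} {L : List V} {p : ℕ} {v : V} {next : Bool → P.Conf}
      {c : Bool} (h : P.act q = Act.read v next) (hc : R v c) (h' : Seg P R (next c) r L p) :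
      Seg P R q r (v :: L) p
  | opn {q q' : P.Conf} {c : P.Γ} {L : List V} {p : ℕ} (h : P.act q = Act.push c q')
      (h' : Seg P R q' none L p) : Seg P R q none L p
  | call {q q₁ q₂ : P.Conf} {c : P.Γ} {next : P.Γ → P.Conf} {r : Option P.Conf} {L₁ L₂ : List V}
      {p₁ p₂ : ℕ} (h : P.act q = Act.push c q₁) (h₁ : Seg P R q₁ (some q₂) L₁ p₁)
      (h₂ : P.act q₂ = Act.pop next) (h₃ : Seg P R (next c) r L₂ p₂) :
      Seg P R q r (L₁ ++ L₂) (max p₁ 1 + p₂)

/-- the decomposition of a computation -/
inductive Dec (P : Mach V) (R : V → Bool → Prop) :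
    P.Conf → List P.Γ → Bool → List V → ℕ → Prop
  | last {q : P.Conf} {s : List P.Γ} {u : Bool} {L : List V} {p : ℕ} (h : Seg P R q none L p) :
      Dec P R q s u L p
  | more {q q₂ : P.Conf} {c : P.Γ} {s : List P.Γ} {u : Bool} {next : P.Γ → P.Conf}
      {L L₁ L₂ : List V} {p₁ t t' : ℕ} (h₁ : Seg P R q (some q₂) L₁ p₁)
      (h₂ : P.act q₂ = Act.pop next) (h₃ : Dec P R (next c) s false L₂ t)
      (hL : L = L₁ ++ L₂) (ht : t' = p₁ + t + if u = true ∧ p₁ = 0 then 1 else 0) :
      Dec P R q (c :: s) u L t'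

theorem dec_of_comp {P : Mach V} {R : V → Bool → Prop} {q : P.Conf} {s : List P.Γ} {u : Bool}
    {L : List V} {t : ℕ} (h : P.CompT R q s u L t) : Dec P R q s u L t := by
  induction h with
  | halt h => exact Dec.last (Seg.halt h)
  | guess h hq _ ih =>
    cases ih with
    | last h' => exact Dec.last (Seg.guess h hq h')
    | more h₁ h₂ h₃ hL ht => exact Dec.more (Seg.guess h hq h₁) h₂ h₃ hL ht
  | read h hc _ ih =>
    cases ih with
    | last h' => exact Dec.last (Seg.read h hc h')
    | more h₁ h₂ h₃ hL ht =>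
      subst hL
      exact Dec.more (Seg.read h hc h₁) h₂ h₃ rfl ht
  | push h _ ih =>
    cases ih with
    | last h' => exact Dec.last (Seg.opn h h')
    | more h₁ h₂ h₃ hL ht =>
      subst hL
      cases h₃ with
      | last h' =>
        have h4 := Seg.call h h₁ h₂ h'
        rw [ht]
        convert Dec.last h4 using 1
        simp only [true_and]
        split_ifs <;> omega
      | more h₁' h₂' h₃' hL' ht' =>
        have h4 := Seg.call h h₁ h₂ h₁'
        refine Dec.more h4 h₂' h₃' (by rw [hL', List.append_assoc]) ?_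
        rw [ht, ht']
        simp only [true_and, Bool.false_eq_true, false_and, if_false]
        split_ifs <;> omega
  | pop h _ ih =>
    refine Dec.more (Seg.nil _) h ih rfl ?_
    simp only [and_true]
    omega

theorem seg_of_comp {P : Mach V} {R : V → Bool → Prop} {q : P.Conf} {u : Bool}
    {L : List V} {t : ℕ} (h : P.CompT R q [] u L t) : Seg P R q none L t := by
  cases dec_of_comp h with
  | last h' => exact h'

theorem comp_of_seg {P : Mach V} {R : V → Bool → Prop} {q : P.Conf} {r : Option P.Conf}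
    {L : List V} {p : ℕ} (h : Seg P R q r L p) :
    (r = none → ∀ s, P.Comp R q s L true) ∧
      ∀ q', r = some q' → ∀ s L' b, P.Comp R q' s L' b → P.Comp R q s (L ++ L') b := by
  induction h with
  | nil q =>
    refine ⟨fun h => by simp at h, fun q' hq' s L' b h => ?_⟩
    cases hq'
    exact h
  | halt h => exact ⟨fun _ s => Mach.Comp.halt h, fun q' hq' => by simp at hq'⟩
  | guess h hq _ ih =>
    exact ⟨fun hr s => Mach.Comp.guess h hq (ih.1 hr s),
      fun q' hq' s L' b h' => Mach.Comp.guess h hq (ih.2 q' hq' s L' b h')⟩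
  | read h hc _ ih =>
    exact ⟨fun hr s => Mach.Comp.read h hc (ih.1 hr s),
      fun q' hq' s L' b h' => Mach.Comp.read h hc (ih.2 q' hq' s L' b h')⟩
  | opn h _ ih =>
    exact ⟨fun hr s => Mach.Comp.push h (ih.1 hr _), fun q' hq' => by simp at hq'⟩
  | call h _ h₂ _ ih₁ ih₃ =>
    refine ⟨fun hr s => Mach.Comp.push h ?_, fun q' hq' s L' b h' => Mach.Comp.push h ?_⟩
    · exact ih₁.2 _ rfl _ _ _ (Mach.Comp.pop h₂ (ih₃.1 hr s))
    · rw [List.append_assoc]
      exact ih₁.2 _ rfl _ _ _ (Mach.Comp.pop h₂ (ih₃.2 q' hq' s L' b h'))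

/-! ### The program -/

/-- the unfinished parts -/
abbrev Parts (P : Mach V) : Type := List (P.Conf × Option P.Conf)

/-- the edges of the program -/
inductive Edge (P : Mach V) : Parts P → Option (V × Bool) → Parts P → Prop
  | done (q : P.Conf) (l : Parts P) : Edge P ((q, some q) :: l) none l
  | halt {q : P.Conf} (l : Parts P) (h : P.act q = Act.halt true) :
      Edge P ((q, none) :: l) none l
  | guess {q q' : P.Conf} {next : Set P.Conf} (r : Option P.Conf) (l : Parts P)
      (h : P.act q = Act.guess next) (hq : q' ∈ next) : Edge P ((q, r) :: l) none ((q', r) :: l)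
  | read {q : P.Conf} {v : V} {next : Bool → P.Conf} (c : Bool) (r : Option P.Conf)
      (l : Parts P) (h : P.act q = Act.read v next) :
      Edge P ((q, r) :: l) (some (v, c)) ((next c, r) :: l)
  | opn {q q' : P.Conf} {c : P.Γ} (l : Parts P) (h : P.act q = Act.push c q') :
      Edge P ((q, none) :: l) none ((q', none) :: l)
  | inner {q q₁ q₂ : P.Conf} {c : P.Γ} {next : P.Γ → P.Conf} (r : Option P.Conf) (l : Parts P)
      (h : P.act q = Act.push c q₁) (h₂ : P.act q₂ = Act.pop next) :
      Edge P ((q, r) :: l) none ((q₁, some q₂) :: (next c, r) :: l)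
  | outer {q q₁ q₂ : P.Conf} {c : P.Γ} {next : P.Γ → P.Conf} (r : Option P.Conf) (l : Parts P)
      (h : P.act q = Act.push c q₁) (h₂ : P.act q₂ = Act.pop next) :
      Edge P ((q, r) :: l) none ((next c, r) :: (q₁, some q₂) :: l)

/-- the nodes of the program -/
def Nd (P : Mach V) (d : ℕ) : Type := {l : Parts P // l.length ≤ d}

/-- the positions of a list -/
def pos {P : Mach V} {d : ℕ} (l : Nd P d) : Fin d → Option (P.Conf × Option P.Conf) :=
  fun i => l.1[i.1]?

theorem pos_inj {P : Mach V} {d : ℕ} : Function.Injective (pos (P := P) (d := d)) := by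
  rintro ⟨l, hl⟩ ⟨l', hl'⟩ h
  apply Subtype.ext
  apply List.ext_getElem?
  intro i
  by_cases hi : i < d
  · exact congrFun h ⟨i, hi⟩
  · show l[i]? = l'[i]?
    rw [List.getElem?_eq_none (by omega), List.getElem?_eq_none (by omega)]

noncomputable instance (P : Mach V) (d : ℕ) : Fintype (Nd P d) := by
  classical
  exact Fintype.ofInjective _ pos_inj

theorem card_nd (P : Mach V) (d : ℕ) : Fintype.card (Nd P d) ≤
    (Fintype.card P.Conf * (Fintype.card P.Conf + 1) + 1) ^ d := by
  classical
  refine (Fintype.card_le_of_injective _ (pos_inj (P := P) (d := d))).trans (le_of_eq ?_)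
  rw [Fintype.card_fun, Fintype.card_option, Fintype.card_prod, Fintype.card_option,
    Fintype.card_fin]

/-- the program -/
noncomputable def prog (P : Mach V) (d : ℕ) (hd : 1 ≤ d) : NBP V where
  Node := Nd P d
  start := ⟨[(P.start, none)], hd⟩
  accept := ⟨[], Nat.zero_le _⟩
  edge := fun a e b => Edge P a.1 e b.1

/-- the parts of a list are parts of computations -/
def Segs (P : Mach V) (R : V → Bool → Prop) : Parts P → List V → Prop
  | [], L => L = []
  | a :: l, L => ∃ L₁ L₂ p, Seg P R a.1 a.2 L₁ p ∧ Segs P R l L₂ ∧ L.Perm (L₁ ++ L₂)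

theorem segs_free {P : Mach V} {R : V → Bool → Prop} {l l' : Parts P}
    (h : Edge P l none l') {L : List V} (hL : Segs P R l' L) : Segs P R l L := by
  cases h with
  | done q l => exact ⟨[], L, 0, Seg.nil q, hL, List.Perm.refl _⟩
  | halt l h => exact ⟨[], L, 0, Seg.halt h, hL, List.Perm.refl _⟩
  | guess r l h hq =>
    obtain ⟨L₁, L₂, p, h1, h2, h3⟩ := hL
    exact ⟨L₁, L₂, p, Seg.guess h hq h1, h2, h3⟩
  | opn l h =>
    obtain ⟨L₁, L₂, p, h1, h2, h3⟩ := hL
    exact ⟨L₁, L₂, p, Seg.opn h h1, h2, h3⟩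
  | inner r l h h₂ =>
    obtain ⟨L₁, L₂, p, h1, ⟨L₃, L₄, p', h4, h5, h6⟩, h3⟩ := hL
    refine ⟨L₁ ++ L₃, L₄, _, Seg.call h h1 h₂ h4, h5, ?_⟩
    refine h3.trans ?_
    rw [List.append_assoc]
    exact h6.append_left L₁
  | outer r l h h₂ =>
    obtain ⟨L₁, L₂, p, h1, ⟨L₃, L₄, p', h4, h5, h6⟩, h3⟩ := hL
    refine ⟨L₃ ++ L₁, L₄, _, Seg.call h h4 h₂ h1, h5, ?_⟩
    refine (h3.trans (h6.append_left L₁)).trans ?_
    rw [← List.append_assoc]
    exact List.perm_append_comm.append_right L₄

theorem segs_test {P : Mach V} {R : V → Bool → Prop} {l l' : Parts P} {v : V} {c : Bool}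
    (h : Edge P l (some (v, c)) l') (hc : R v c) {L : List V} (hL : Segs P R l' L) :
    Segs P R l (v :: L) := by
  cases h with
  | read c r l h =>
    obtain ⟨L₁, L₂, p, h1, h2, h3⟩ := hL
    exact ⟨v :: L₁, L₂, p, Seg.read h hc h1, h2, h3.cons v⟩

theorem segs_of_walk {P : Mach V} {d : ℕ} {hd : 1 ≤ d} {R : V → Bool → Prop}
    {a b : (prog P d hd).Node} {L : List V} (h : (prog P d hd).Walk R a L b)
    (hb : b = (prog P d hd).accept) : Segs P R a.1 L := by
  induction h with
  | nil u => rw [hb]; rfl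
  | free h _ ih => exact segs_free h (ih hb)
  | test h hc _ ih => exact segs_test h hc (ih hb)

theorem comp_of_walk {P : Mach V} {d : ℕ} {hd : 1 ≤ d} {R : V → Bool → Prop} {L : List V}
    (h : (prog P d hd).Walk R (prog P d hd).start L (prog P d hd).accept) :
    ∃ L', P.Comp R P.start [] L' true ∧ L.Perm L' := by
  obtain ⟨L₁, L₂, p, h1, h2, h3⟩ := segs_of_walk h rfl
  have h4 : L₂ = [] := h2
  rw [h4, List.append_nil] at h3
  exact ⟨L₁, (comp_of_seg h1).1 rfl [], h3⟩

/-! ### Short lists suffice -/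

/-- the number of unfinished parts which is needed for `p` turns -/
def need (p : ℕ) : ℕ := if p = 0 then 1 else Nat.log 2 p + 2

theorem need_pos (p : ℕ) : 1 ≤ need p := by
  unfold need
  split_ifs <;> omega

theorem need_mono {a b : ℕ} (h : a ≤ b) : need a ≤ need b := by
  unfold need
  have := Nat.log_mono_right (b := 2) h
  split_ifs <;> omega

theorem need_half {a b : ℕ} (h : 2 * a ≤ b) (hb : 1 ≤ b) : need a + 1 ≤ need b := by
  unfold need
  rcases Nat.eq_zero_or_pos a with ha | ha
  · rw [if_pos ha, if_neg (by omega)]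
    omega
  · rw [if_neg (by omega), if_neg (by omega)]
    have h1 : Nat.log 2 (a * 2) = Nat.log 2 a + 1 := Nat.log_mul_base (by norm_num) (by omega)
    have h2 : Nat.log 2 (a * 2) ≤ Nat.log 2 b := Nat.log_mono_right (by omega)
    omega

/-- there is a walk from the list to the end -/
def Good (P : Mach V) (d : ℕ) (hd : 1 ≤ d) (R : V → Bool → Prop) (l : Parts P) : Prop :=
  ∃ (h : l.length ≤ d) (L : List V), (prog P d hd).Walk R ⟨l, h⟩ L (prog P d hd).accept

theorem good_free {P : Mach V} {d : ℕ} {hd : 1 ≤ d} {R : V → Bool → Prop} {l l' : Parts P}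
    (h : Edge P l none l') (hl : l.length ≤ d) (hg : Good P d hd R l') : Good P d hd R l := by
  obtain ⟨h1, L, h2⟩ := hg
  exact ⟨hl, L, NBP.Walk.free (B := prog P d hd) (u := ⟨l, hl⟩) (u' := ⟨l', h1⟩) h h2⟩

theorem good_test {P : Mach V} {d : ℕ} {hd : 1 ≤ d} {R : V → Bool → Prop} {l l' : Parts P}
    {v : V} {c : Bool} (h : Edge P l (some (v, c)) l') (hc : R v c) (hl : l.length ≤ d)
    (hg : Good P d hd R l') : Good P d hd R l := by
  obtain ⟨h1, L, h2⟩ := hg
  exact ⟨hl, v :: L,
    NBP.Walk.test (B := prog P d hd) (u := ⟨l, hl⟩) (u' := ⟨l', h1⟩) h hc h2⟩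

theorem good_of_seg {P : Mach V} {d : ℕ} {hd : 1 ≤ d} {R : V → Bool → Prop} {q : P.Conf}
    {r : Option P.Conf} {L : List V} {p : ℕ} (h : Seg P R q r L p) :
    ∀ l : Parts P, l.length + need p ≤ d → Good P d hd R l → Good P d hd R ((q, r) :: l) := by
  induction h with
  | nil q =>
    intro l hl hg
    have := need_pos 0
    exact good_free (Edge.done q l) (by rw [List.length_cons]; omega) hg
  | halt h =>
    intro l hl hg
    have := need_pos 0
    exact good_free (Edge.halt l h) (by rw [List.length_cons]; omega) hg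
  | @guess q q' r L p next h hq h' ih =>
    intro l hl hg
    have := need_pos p
    exact good_free (Edge.guess r l h hq) (by rw [List.length_cons]; omega) (ih l hl hg)
  | @read q r L p v next c h hc h' ih =>
    intro l hl hg
    have := need_pos p
    exact good_test (Edge.read c r l h) hc (by rw [List.length_cons]; omega) (ih l hl hg)
  | @opn q q' c L p h h' ih =>
    intro l hl hg
    have := need_pos p
    exact good_free (Edge.opn l h) (by rw [List.length_cons]; omega) (ih l hl hg)
  | @call q q₁ q₂ c next r L₁ L₂ p₁ p₂ h h₁ h₂ h₃ ih₁ ih₃ =>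
    intro l hl hg
    have h0 := need_pos (max p₁ 1 + p₂)
    have hp1 : need p₁ ≤ need (max p₁ 1 + p₂) := need_mono (by omega)
    have hp2 : need p₂ ≤ need (max p₁ 1 + p₂) := need_mono (by omega)
    rcases le_or_gt p₁ p₂ with hle | hlt
    · have h4 : need p₁ + 1 ≤ need (max p₁ 1 + p₂) := need_half (by omega) (by omega)
      refine good_free (Edge.inner r l h h₂) (by rw [List.length_cons]; omega) ?_
      exact ih₁ _ (by rw [List.length_cons]; omega) (ih₃ l (by omega) hg)
    · have h4 : need p₂ + 1 ≤ need (max p₁ 1 + p₂) := need_half (by omega) (by omega)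
      refine good_free (Edge.outer r l h h₂) (by rw [List.length_cons]; omega) ?_
      exact ih₃ _ (by rw [List.length_cons]; omega) (ih₁ l (by omega) hg)

/-- **The store is not needed.** -/
theorem prog_accepts {P : Mach V} {d t : ℕ} {hd : 1 ≤ d} (ht : Nat.log 2 (t + 1) + 2 ≤ d)
    {x : V → Bool} (h : P.AcceptsTurns t x) : (prog P d hd).Accepts x := by
  obtain ⟨L, t', ht', h1⟩ := h
  have h2 := seg_of_comp h1
  have h3 : need t' ≤ d := by
    unfold need
    have := Nat.log_mono_right (b := 2) (show t' ≤ t + 1 by omega)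
    split_ifs <;> omega
  obtain ⟨h4, L', h5⟩ := good_of_seg (d := d) (hd := hd) h2 [] (by simpa using h3)
    ⟨Nat.zero_le _, [], NBP.Walk.nil (B := prog P d hd) _⟩
  exact ⟨L', h5⟩

theorem answers_of_prog {P : Mach V} {d : ℕ} {hd : 1 ≤ d} {x : V → Bool}
    (h : (prog P d hd).Accepts x) : P.Answers x true := by
  obtain ⟨L, hL⟩ := h
  obtain ⟨L', h1, -⟩ := comp_of_walk hL
  exact ⟨L', h1⟩

theorem path_of_prog {P : Mach V} {d : ℕ} {hd : 1 ≤ d} {L : List V}
    (h : (prog P d hd).Path L) : ∃ L', P.Path L' true ∧ L.Perm L' :=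
  comp_of_walk h

end Pool.Agent.V8H39.TV
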