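import Mathlib
import Pool.Agent.V8H39.TV.Sim
import Pool.Agent.V8H45.TS.Main

/-!
# Few turns and few reads
-/

set_option autoImplicit false

open Finset

namespace Pool.Agent.V8H39.TV

open Pool.Agent.V8H39.SR Pool.Agent.V8H47.MH

theorem oneDPDA_two {α : Type} {U : Language α} (h : U ∈ oneDPDA α) : U ∈ twoDPDA 1 α := by
  obtain ⟨Γ, hΓ, M, h1, -, h2⟩ := h
  exact ⟨Γ, hΓ, M, h1, h2⟩

theorem size_bound {s n E d : ℕ} (hn : 2 ≤ n) (hs : s ≤ n ^ E) :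
    (s * (s + 1) + 1) ^ d ≤ n ^ ((2 * E + 2) * d) := by
  rw [pow_mul]
  refine Nat.pow_le_pow_left ?_ d
  have h1 : 1 ≤ n ^ E := Nat.one_le_pow _ _ (by omega)
  have h2 : s * (s + 1) + 1 ≤ 3 * (n ^ E * n ^ E) := by
    have h3 : s * s ≤ n ^ E * n ^ E := Nat.mul_le_mul hs hs
    have h4 : n ^ E ≤ n ^ E * n ^ E := Nat.le_mul_of_pos_left _ h1
    have h5 : s * (s + 1) = s * s + s := by ring
    omega
  have h6 : 3 ≤ n ^ 2 := by nlinarith
  calc s * (s + 1) + 1 ≤ 3 * (n ^ E * n ^ E) := h2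
    _ ≤ n ^ 2 * (n ^ E * n ^ E) := Nat.mul_le_mul_right _ h6
    _ = n ^ (2 * E + 2) := by ring

/-- **Few turns and few reads.** -/
theorem main : ∃ U ∈ oneDPDA Sy, U ∈ twoDPDA 1 Sy ∧ ∀ k, ∃ (C : ℕ) (p : ∀ n, List (Sy ⊕ Fin n)),
    (∀ n, (p n).length ≤ (n + 2) ^ 5 ∧ (p n).filterMap Sum.getRight? = List.finRange n) ∧
    ∀ n E t, C * (E + 1) * (Nat.log 2 (t + 1) + 1) ≤ Nat.log 2 n →
      ∀ (c : Bool) (P : Mach (Fin n)), Fintype.card P.Conf ≤ n ^ E →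
      (∃ κ : Fin n → ℕ, ∑ v, κ v ≤ k * n ∧ ∀ L, P.Path L true → ∀ v, L.count v ≤ κ v) →
      (∀ x, P.Answers x true → (fillBits (p n) x ∈ U ↔ c = true)) →
      2 ^ E * Nat.card {x // P.AcceptsTurns t x} ≤ 2 ^ n := by
  classical
  obtain ⟨U, hU, hmain⟩ := Pool.Agent.V8H45.TS.mainT
  refine ⟨U, hU, oneDPDA_two hU, fun k => ?_⟩
  obtain ⟨C, p, hp, hC⟩ := hmain k
  refine ⟨6 * C + 1, p, hp, fun n E t hE c P hP hκ hacc => ?_⟩
  obtain ⟨κ, hκ1, hκ2⟩ := hκ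
  obtain ⟨l, hl⟩ : ∃ l, l = Nat.log 2 (t + 1) := ⟨_, rfl⟩
  obtain ⟨d, hd⟩ : ∃ d, d = l + 2 := ⟨_, rfl⟩
  rw [← hl] at hE
  have hn : 2 ≤ n := by
    by_contra hcon
    have h1 : Nat.log 2 n = 0 := by
      apply Nat.log_of_lt
      omega
    rw [h1] at hE
    have h2 : 0 < (6 * C + 1) * (E + 1) * (l + 1) := by positivity
    omega
  have hd1 : 1 ≤ d := by omega
  have hE' : C * ((2 * E + 2) * d + 1) ≤ Nat.log 2 n := by
    refine le_trans ?_ hE
    have h1 : (2 * E + 2) * d + 1 ≤ 6 * ((E + 1) * (l + 1)) := by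
      rw [hd]
      nlinarith
    calc C * ((2 * E + 2) * d + 1) ≤ C * (6 * ((E + 1) * (l + 1))) := Nat.mul_le_mul_left _ h1
      _ = 6 * C * (E + 1) * (l + 1) := by ring
      _ ≤ (6 * C + 1) * (E + 1) * (l + 1) := by gcongr; omega
  have h1 := hC n ((2 * E + 2) * d) hE' c (prog P d hd1)
    ((card_nd P d).trans (size_bound hn hP))
    ⟨κ, hκ1, fun L hL v => by
      obtain ⟨L', h2, h3⟩ := path_of_prog hL
      rw [h3.count_eq]
      exact hκ2 L' h2 v⟩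
    (fun x hx => hacc x (answers_of_prog hx))
  refine le_trans (Nat.mul_le_mul ?_ ?_) h1
  · refine Nat.pow_le_pow_right (by norm_num) ?_
    nlinarith
  · exact Nat.card_le_card_of_injective
      (fun x : {x // P.AcceptsTurns t x} => (⟨x.1, prog_accepts (by rw [hd, hl]) x.2⟩ :
        {x // (prog P d hd1).Accepts x})) fun x y hxy =>
          Subtype.ext (congrArg (fun z : {x // (prog P d hd1).Accepts x} => z.1) hxy)

/-- the exponent of the program without a store -/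
theorem exponent {C E t n : ℕ} (h : (6 * C + 1) * (E + 1) * (Nat.log 2 (t + 1) + 1) ≤ Nat.log 2 n) :
    2 ≤ n ∧ C * ((2 * E + 2) * (Nat.log 2 (t + 1) + 2) + 1) ≤ Nat.log 2 n := by
  obtain ⟨l, hl⟩ : ∃ l, l = Nat.log 2 (t + 1) := ⟨_, rfl⟩
  rw [← hl] at h ⊢
  constructor
  · by_contra hcon
    have h1 : Nat.log 2 n = 0 := by
      apply Nat.log_of_lt
      omega
    rw [h1] at h
    have h2 : 0 < (6 * C + 1) * (E + 1) * (l + 1) := by positivity
    omega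
  · refine le_trans ?_ h
    have h1 : (2 * E + 2) * (l + 2) + 1 ≤ 6 * ((E + 1) * (l + 1)) := by nlinarith
    calc C * ((2 * E + 2) * (l + 2) + 1) ≤ C * (6 * ((E + 1) * (l + 1))) :=
          Nat.mul_le_mul_left _ h1
      _ = 6 * C * (E + 1) * (l + 1) := by ring
      _ ≤ (6 * C + 1) * (E + 1) * (l + 1) := by gcongr; omega

/-- **Few turns and few reads, relative to the members.** -/
theorem main' : ∃ U ∈ oneDPDA Sy, U ∈ twoDPDA 1 Sy ∧ ∀ k, ∃ (C : ℕ) (p : ∀ n, List (Sy ⊕ Fin n)),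
    (∀ n, (p n).length ≤ (n + 2) ^ 5 ∧ (p n).filterMap Sum.getRight? = List.finRange n) ∧
    ∀ n E t, C * (E + 1) * (Nat.log 2 (t + 1) + 1) ≤ Nat.log 2 n →
      (∃ x, fillBits (p n) x ∈ U) ∧
      ∀ P : Mach (Fin n), Fintype.card P.Conf ≤ n ^ E →
        (∃ κ : Fin n → ℕ, ∑ v, κ v ≤ k * n ∧ ∀ L, P.Path L true → ∀ v, L.count v ≤ κ v) →
        (∀ x, P.Answers x true → fillBits (p n) x ∈ U) →
        2 ^ E * Nat.card {x // P.AcceptsTurns t x} ≤
          Nat.card {x : Fin n → Bool // fillBits (p n) x ∈ U} := by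
  classical
  obtain ⟨U, hU, hU', hmain⟩ := Pool.Agent.V8H39.SR.main
  refine ⟨U, hU, hU', fun k => ?_⟩
  obtain ⟨C, p, hp, hC⟩ := hmain k
  refine ⟨6 * C + 1, p, hp, fun n E t hE => ?_⟩
  obtain ⟨hn, hE'⟩ := exponent hE
  obtain ⟨h0, hC'⟩ := hC n _ hE'
  refine ⟨h0, ?_⟩
  rintro P hP ⟨κ, hκ1, hκ2⟩ hacc
  have h1 := hC' (prog P (Nat.log 2 (t + 1) + 2) (by omega))
    ((card_nd P _).trans (size_bound hn hP))
    ⟨κ, hκ1, fun L hL v => by
      obtain ⟨L', h2, h3⟩ := path_of_prog hL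
      rw [h3.count_eq]
      exact hκ2 L' h2 v⟩
    (fun x hx => hacc x (answers_of_prog hx))
  refine le_trans (Nat.mul_le_mul ?_ ?_) h1
  · refine Nat.pow_le_pow_right (by norm_num) ?_
    nlinarith [Nat.zero_le (Nat.log 2 (t + 1)), Nat.zero_le (E * Nat.log 2 (t + 1))]
  · exact Nat.card_le_card_of_injective
      (fun x : {x // P.AcceptsTurns t x} => (⟨x.1, prog_accepts le_rfl x.2⟩ :
        {x // (prog P (Nat.log 2 (t + 1) + 2) (by omega)).Accepts x})) fun x y hxy =>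
          Subtype.ext (congrArg
            (fun z : {x // (prog P (Nat.log 2 (t + 1) + 2) (by omega)).Accepts x} => z.1) hxy)

end Pool.Agent.V8H39.TV
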