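import Mathlib
import Pool.Agent.V8H45.TE.MainE
import Pool.Agent.V8H39.TV.Main

/-!
# Few turns, few reads and few errors
-/

set_option autoImplicit false

open Finset

namespace Pool.Agent.V8H39.TV

open Pool.Agent.V8H39.SR Pool.Agent.V8H47.MH

/-- **Few turns, few reads and few errors.** -/
theorem mainQ : ∃ U ∈ oneDPDA Sy, U ∈ twoDPDA 1 Sy ∧ ∀ k, ∃ (C : ℕ) (p : ∀ n, List (Sy ⊕ Fin n)),
    (∀ n, (p n).length ≤ (n + 2) ^ 5 ∧ (p n).filterMap Sum.getRight? = List.finRange n) ∧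
    ∀ n E t, C * (E + 1) * (Nat.log 2 (t + 1) + 1) ≤ Nat.log 2 n →
      2 * Nat.card {x : Fin n → Bool // fillBits (p n) x ∈ U} = 2 ^ n ∧
      ∀ (c : Bool) (P : Mach (Fin n)), Fintype.card P.Conf ≤ n ^ E →
      (∃ κ : Fin n → ℕ, ∑ v, κ v ≤ k * n ∧ ∀ L, P.Path L true → ∀ v, L.count v ≤ κ v) →
      2 ^ E * Nat.card {x // P.AcceptsTurns t x} ≤ 2 ^ n +
        n ^ (C * (E + 1) * (Nat.log 2 (t + 1) + 1)) *
          Nat.card {x // P.Answers x true ∧ ¬ (fillBits (p n) x ∈ U ↔ c = true)} := by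
  classical
  obtain ⟨U, hU, hmain⟩ := Pool.Agent.V8H45.TE.mainE
  refine ⟨U, hU, oneDPDA_two hU, fun k => ?_⟩
  obtain ⟨C, p, hp, hC⟩ := hmain k
  refine ⟨6 * C + 1, p, hp, fun n E t hE => ?_⟩
  obtain ⟨hn, hE'⟩ := exponent hE
  have hE1 : C * ((2 * E + 2) * (Nat.log 2 (t + 1) + 2) + 1) ≤ Nat.log 2 n := hE'
  refine ⟨(hC n _ hE1).1, fun c P hP hκ => ?_⟩
  obtain ⟨κ, hκ1, hκ2⟩ := hκ
  have h1 := (hC n _ hE1).2 c (prog P (Nat.log 2 (t + 1) + 2) (by omega))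
    ((card_nd P _).trans (size_bound hn hP))
    ⟨κ, hκ1, fun L hL v => by
      obtain ⟨L', h2, h3⟩ := path_of_prog hL
      rw [h3.count_eq]
      exact hκ2 L' h2 v⟩
  obtain ⟨l, hl⟩ : ∃ l, l = Nat.log 2 (t + 1) := ⟨_, rfl⟩
  have hacc : Nat.card {x // P.AcceptsTurns t x} ≤
      Nat.card {x // (prog P (Nat.log 2 (t + 1) + 2) (by omega)).Accepts x} :=
    Nat.card_le_card_of_injective
      (fun x : {x // P.AcceptsTurns t x} => (⟨x.1, prog_accepts le_rfl x.2⟩ :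
        {x // (prog P (Nat.log 2 (t + 1) + 2) (by omega)).Accepts x})) fun x y hxy =>
          Subtype.ext (congrArg
            (fun z : {x // (prog P (Nat.log 2 (t + 1) + 2) (by omega)).Accepts x} => z.1) hxy)
  have herr : Nat.card {x // (prog P (Nat.log 2 (t + 1) + 2) (by omega)).Accepts x ∧
      ¬ (fillBits (p n) x ∈ U ↔ c = true)} ≤
      Nat.card {x // P.Answers x true ∧ ¬ (fillBits (p n) x ∈ U ↔ c = true)} :=
    Nat.card_le_card_of_injective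
      (fun x : {x // (prog P (Nat.log 2 (t + 1) + 2) (by omega)).Accepts x ∧
        ¬ (fillBits (p n) x ∈ U ↔ c = true)} => (⟨x.1, answers_of_prog x.2.1, x.2.2⟩ :
        {x // P.Answers x true ∧ ¬ (fillBits (p n) x ∈ U ↔ c = true)})) fun x y hxy =>
          Subtype.ext (congrArg
            (fun z : {x // P.Answers x true ∧ ¬ (fillBits (p n) x ∈ U ↔ c = true)} => z.1) hxy)
  have hexp : C * ((2 * E + 2) * (Nat.log 2 (t + 1) + 2) + 1) ≤
      (6 * C + 1) * (E + 1) * (Nat.log 2 (t + 1) + 1) := by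
    rw [← hl]
    have h2 : (2 * E + 2) * (l + 2) + 1 ≤ 6 * ((E + 1) * (l + 1)) := by nlinarith
    calc C * ((2 * E + 2) * (l + 2) + 1) ≤ C * (6 * ((E + 1) * (l + 1))) :=
          Nat.mul_le_mul_left _ h2
      _ = 6 * C * (E + 1) * (l + 1) := by ring
      _ ≤ (6 * C + 1) * (E + 1) * (l + 1) := by gcongr; omega
  calc 2 ^ E * Nat.card {x // P.AcceptsTurns t x}
      ≤ 2 ^ ((2 * E + 2) * (Nat.log 2 (t + 1) + 2)) *
          Nat.card {x // (prog P (Nat.log 2 (t + 1) + 2) (by omega)).Accepts x} := by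
        refine Nat.mul_le_mul (Nat.pow_le_pow_right (by norm_num) ?_) hacc
        nlinarith [Nat.zero_le (Nat.log 2 (t + 1)), Nat.zero_le (E * Nat.log 2 (t + 1))]
    _ ≤ _ := h1
    _ ≤ 2 ^ n + n ^ ((6 * C + 1) * (E + 1) * (Nat.log 2 (t + 1) + 1)) *
          Nat.card {x // P.Answers x true ∧ ¬ (fillBits (p n) x ∈ U ↔ c = true)} :=
        Nat.add_le_add_left (Nat.mul_le_mul (Nat.pow_le_pow_right (by omega) hexp) herr) _

end Pool.Agent.V8H39.TV
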