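import Mathlib
import Pool.Agent.V8H39.TV.DimDefs
import Pool.Agent.V8H39.TV.MainQ

/-!
# A store with a small dimension is not needed
-/

set_option autoImplicit false

open Finset

namespace Pool.Agent.V8H39.TV

open Pool.Agent.V8H39.SR Pool.Agent.V8H47.MH Pool.Agent.V8H39.SR.Mach

variable {V : Type}

/-- the dimension which is sufficient for `p` turns -/
def dimT (p : ℕ) : ℕ := if p = 0 then 0 else Nat.log 2 p + 1

theorem dimT_mono {a b : ℕ} (h : a ≤ b) : dimT a ≤ dimT b := by
  unfold dimT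
  have := Nat.log_mono_right (b := 2) h
  split_ifs <;> omega

theorem dimT_half {a b : ℕ} (h : 2 * a ≤ b) (hb : 1 ≤ b) : dimT a + 1 ≤ dimT b := by
  unfold dimT
  rcases Nat.eq_zero_or_pos a with ha | ha
  · rw [if_pos ha, if_neg (by omega)]
    omega
  · rw [if_neg (by omega), if_neg (by omega)]
    have h1 : Nat.log 2 (a * 2) = Nat.log 2 a + 1 := Nat.log_mul_base (by norm_num) (by omega)
    have h2 : Nat.log 2 (a * 2) ≤ Nat.log 2 b := Nat.log_mono_right (by omega)
    omega

theorem join_le {a b p q : ℕ} (ha : a ≤ dimT p) (hb : b ≤ dimT q) :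
    join a b ≤ dimT (max p 1 + q) := by
  unfold join
  split_ifs with h
  · subst h
    rcases le_total p q with h1 | h1
    · have := dimT_half (a := p) (b := max p 1 + q) (by omega) (by omega)
      omega
    · have := dimT_half (a := q) (b := max p 1 + q) (by omega) (by omega)
      omega
  · have h1 := dimT_mono (show p ≤ max p 1 + q by omega)
    have h2 := dimT_mono (show q ≤ max p 1 + q by omega)
    omega

theorem part_of_seg {P : Mach V} {R : V → Bool → Prop} {q : P.Conf} {r : Option P.Conf}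
    {L : List V} {p : ℕ} (h : Seg P R q r L p) : ∃ d ≤ dimT p, P.Part R q r L d := by
  induction h with
  | nil q => exact ⟨0, Nat.zero_le _, Part.done q⟩
  | halt h => exact ⟨0, Nat.zero_le _, Part.halt h⟩
  | guess h hq _ ih =>
    obtain ⟨d, hd, h'⟩ := ih
    exact ⟨d, hd, Part.guess h hq h'⟩
  | read h hc _ ih =>
    obtain ⟨d, hd, h'⟩ := ih
    exact ⟨d, hd, Part.read h hc h'⟩
  | opn h _ ih =>
    obtain ⟨d, hd, h'⟩ := ih
    exact ⟨d, hd, Part.opn h h'⟩
  | call h _ h₂ _ ih₁ ih₃ =>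
    obtain ⟨d₁, hd₁, h₁'⟩ := ih₁
    obtain ⟨d₂, hd₂, h₃'⟩ := ih₃
    exact ⟨_, join_le hd₁ hd₂, Part.call h h₁' h₂ h₃'⟩

/-- Few turns give a small dimension. -/
theorem acceptsDim_of_turns {P : Mach V} {t : ℕ} {x : V → Bool} (h : P.AcceptsTurns t x) :
    P.AcceptsDim (Nat.log 2 (t + 1) + 1) x := by
  obtain ⟨L, t', ht', h1⟩ := h
  obtain ⟨d, hd, h2⟩ := part_of_seg (seg_of_comp h1)
  refine ⟨L, d, hd.trans ?_, h2⟩
  unfold dimT
  have := Nat.log_mono_right (b := 2) (show t' ≤ t + 1 by omega)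
  split_ifs <;> omega

theorem good_of_part {P : Mach V} {d : ℕ} {hd : 1 ≤ d} {R : V → Bool → Prop} {q : P.Conf}
    {r : Option P.Conf} {L : List V} {e : ℕ} (h : P.Part R q r L e) :
    ∀ l : Parts P, l.length + e + 1 ≤ d → Good P d hd R l → Good P d hd R ((q, r) :: l) := by
  induction h with
  | done q =>
    intro l hl hg
    exact good_free (Edge.done q l) (by rw [List.length_cons]; omega) hg
  | halt h =>
    intro l hl hg
    exact good_free (Edge.halt l h) (by rw [List.length_cons]; omega) hg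
  | @guess q q' r L e next h hq h' ih =>
    intro l hl hg
    exact good_free (Edge.guess r l h hq) (by rw [List.length_cons]; omega) (ih l hl hg)
  | @read q r L e v next c h hc h' ih =>
    intro l hl hg
    exact good_test (Edge.read c r l h) hc (by rw [List.length_cons]; omega) (ih l hl hg)
  | @opn q q' c L e h h' ih =>
    intro l hl hg
    exact good_free (Edge.opn l h) (by rw [List.length_cons]; omega) (ih l hl hg)
  | @call q q₁ q₂ c next r L₁ L₂ d₁ d₂ h h₁ h₂ h₃ ih₁ ih₃ =>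
    intro l hl hg
    unfold join at hl
    rcases le_or_gt d₁ d₂ with hle | hlt
    · refine good_free (Edge.inner r l h h₂)
        (by rw [List.length_cons]; split_ifs at hl <;> omega) ?_
      exact ih₁ _ (by rw [List.length_cons]; split_ifs at hl <;> omega)
        (ih₃ l (by split_ifs at hl <;> omega) hg)
    · refine good_free (Edge.outer r l h h₂)
        (by rw [List.length_cons]; split_ifs at hl <;> omega) ?_
      exact ih₃ _ (by rw [List.length_cons]; split_ifs at hl <;> omega)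
        (ih₁ l (by split_ifs at hl <;> omega) hg)

/-- **A store with a small dimension is not needed.** -/
theorem prog_accepts_dim {P : Mach V} {d e : ℕ} {hd : 1 ≤ d} (he : e + 1 ≤ d)
    {x : V → Bool} (h : P.AcceptsDim e x) : (prog P d hd).Accepts x := by
  obtain ⟨L, d', hd', h1⟩ := h
  obtain ⟨h4, L', h5⟩ := good_of_part (d := d) (hd := hd) h1 []
    (by simp only [List.length_nil]; omega) ⟨Nat.zero_le _, [], NBP.Walk.nil (B := prog P d hd) _⟩
  exact ⟨L', h5⟩

/-- A computation of some dimension is a computation. -/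
theorem comp_of_part {P : Mach V} {R : V → Bool → Prop} {q : P.Conf} {r : Option P.Conf}
    {L : List V} {p : ℕ} (h : P.Part R q r L p) :
    (r = none → ∀ s, P.Comp R q s L true) ∧
      ∀ q', r = some q' → ∀ s L' b, P.Comp R q' s L' b → P.Comp R q s (L ++ L') b := by
  induction h with
  | done q =>
    refine ⟨fun h => by simp at h, fun q' hq' s L' b h => ?_⟩
    cases hq'
    exact h
  | halt h => exact ⟨fun _ s => Mach.Comp.halt h, fun q' hq' => by simp at hq'⟩
  | guess h hq _ ih =>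
    exact ⟨fun hr s => Mach.Comp.guess h hq (ih.1 hr s),
      fun q' hq' s L' b h' => Mach.Comp.guess h hq (ih.2 q' hq' s L' b h')⟩
  | read h hc _ ih =>
    exact ⟨fun hr s => Mach.Comp.read h hc (ih.1 hr s),
      fun q' hq' s L' b h' => Mach.Comp.read h hc (ih.2 q' hq' s L' b h')⟩
  | opn h _ ih =>
    exact ⟨fun hr s => Mach.Comp.push h (ih.1 hr _), fun q' hq' => by simp at hq'⟩
  | call h _ h₂ _ ih₁ ih₃ =>
    refine ⟨fun hr s => Mach.Comp.push h ?_, fun q' hq' s L' b h' => Mach.Comp.push h ?_⟩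
    · exact ih₁.2 _ rfl _ _ _ (Mach.Comp.pop h₂ (ih₃.1 hr s))
    · rw [List.append_assoc]
      exact ih₁.2 _ rfl _ _ _ (Mach.Comp.pop h₂ (ih₃.2 q' hq' s L' b h'))

theorem compT_of_comp {P : Mach V} {R : V → Bool → Prop} {q : P.Conf} {s : List P.Γ}
    {L : List V} {b : Bool} (h : P.Comp R q s L b) (hb : b = true) :
    ∀ u : Bool, ∃ t, P.CompT R q s u L t := by
  induction h with
  | halt h =>
    intro u
    subst hb
    exact ⟨0, CompT.halt h⟩
  | guess h hq _ ih =>
    intro u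
    obtain ⟨t, ht⟩ := ih hb u
    exact ⟨t, CompT.guess h hq ht⟩
  | read h hc _ ih =>
    intro u
    obtain ⟨t, ht⟩ := ih hb u
    exact ⟨t, CompT.read h hc ht⟩
  | push h _ ih =>
    intro u
    obtain ⟨t, ht⟩ := ih hb true
    exact ⟨t, CompT.push h ht⟩
  | pop h _ ih =>
    intro u
    obtain ⟨t, ht⟩ := ih hb false
    exact ⟨_, CompT.pop h ht⟩

/-- Each input which is accepted is accepted with some dimension. -/
theorem answers_iff_dim {P : Mach V} {x : V → Bool} :
    P.Answers x true ↔ ∃ d, P.AcceptsDim d x := by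
  constructor
  · rintro ⟨L, h⟩
    obtain ⟨t, ht⟩ := compT_of_comp h rfl false
    exact ⟨_, acceptsDim_of_turns ⟨L, t, le_rfl, ht⟩⟩
  · rintro ⟨d, L, d', -, h⟩
    exact ⟨L, (comp_of_part h).1 rfl []⟩

theorem exponentD {C E d n : ℕ} (h : (6 * C + 1) * (E + 1) * (d + 1) ≤ Nat.log 2 n) :
    2 ≤ n ∧ C * ((2 * E + 2) * (d + 1) + 1) ≤ Nat.log 2 n := by
  constructor
  · by_contra hcon
    have h1 : Nat.log 2 n = 0 := by
      apply Nat.log_of_lt
      omega
    rw [h1] at h
    have h2 : 0 < (6 * C + 1) * (E + 1) * (d + 1) := by positivity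
    omega
  · refine le_trans ?_ h
    have h1 : (2 * E + 2) * (d + 1) + 1 ≤ 6 * ((E + 1) * (d + 1)) := by nlinarith
    calc C * ((2 * E + 2) * (d + 1) + 1) ≤ C * (6 * ((E + 1) * (d + 1))) :=
          Nat.mul_le_mul_left _ h1
      _ = 6 * C * (E + 1) * (d + 1) := by ring
      _ ≤ (6 * C + 1) * (E + 1) * (d + 1) := by gcongr; omega

/-- **Small dimension, few reads and few errors.** -/
theorem mainD : ∃ U ∈ oneDPDA Sy, U ∈ twoDPDA 1 Sy ∧ ∀ k, ∃ (C : ℕ) (p : ∀ n, List (Sy ⊕ Fin n)),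
    (∀ n, (p n).length ≤ (n + 2) ^ 5 ∧ (p n).filterMap Sum.getRight? = List.finRange n) ∧
    ∀ n E d, C * (E + 1) * (d + 1) ≤ Nat.log 2 n →
      2 * Nat.card {x : Fin n → Bool // fillBits (p n) x ∈ U} = 2 ^ n ∧
      ∀ (c : Bool) (P : Mach (Fin n)), Fintype.card P.Conf ≤ n ^ E →
      (∃ κ : Fin n → ℕ, ∑ v, κ v ≤ k * n ∧ ∀ L, P.Path L true → ∀ v, L.count v ≤ κ v) →
      2 ^ E * Nat.card {x // P.AcceptsDim d x} ≤ 2 ^ n + n ^ (C * (E + 1) * (d + 1)) *
          Nat.card {x // P.Answers x true ∧ ¬ (fillBits (p n) x ∈ U ↔ c = true)} := by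
  classical
  obtain ⟨U, hU, hmain⟩ := Pool.Agent.V8H45.TE.mainE
  refine ⟨U, hU, oneDPDA_two hU, fun k => ?_⟩
  obtain ⟨C, p, hp, hC⟩ := hmain k
  refine ⟨6 * C + 1, p, hp, fun n E d hE => ?_⟩
  obtain ⟨hn, hE1⟩ := exponentD hE
  refine ⟨(hC n _ hE1).1, fun c P hP hκ => ?_⟩
  obtain ⟨κ, hκ1, hκ2⟩ := hκ
  have h1 := (hC n _ hE1).2 c (prog P (d + 1) (by omega))
    ((card_nd P _).trans (size_bound hn hP))
    ⟨κ, hκ1, fun L hL v => by
      obtain ⟨L', h2, h3⟩ := path_of_prog hL
      rw [h3.count_eq]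
      exact hκ2 L' h2 v⟩
  have hacc : Nat.card {x // P.AcceptsDim d x} ≤
      Nat.card {x // (prog P (d + 1) (by omega)).Accepts x} :=
    Nat.card_le_card_of_injective
      (fun x : {x // P.AcceptsDim d x} => (⟨x.1, prog_accepts_dim le_rfl x.2⟩ :
        {x // (prog P (d + 1) (by omega)).Accepts x})) fun x y hxy =>
          Subtype.ext (congrArg (fun z : {x // (prog P (d + 1) (by omega)).Accepts x} => z.1) hxy)
  have herr : Nat.card {x // (prog P (d + 1) (by omega)).Accepts x ∧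
      ¬ (fillBits (p n) x ∈ U ↔ c = true)} ≤
      Nat.card {x // P.Answers x true ∧ ¬ (fillBits (p n) x ∈ U ↔ c = true)} :=
    Nat.card_le_card_of_injective
      (fun x : {x // (prog P (d + 1) (by omega)).Accepts x ∧
        ¬ (fillBits (p n) x ∈ U ↔ c = true)} => (⟨x.1, answers_of_prog x.2.1, x.2.2⟩ :
        {x // P.Answers x true ∧ ¬ (fillBits (p n) x ∈ U ↔ c = true)})) fun x y hxy =>
          Subtype.ext (congrArg
            (fun z : {x // P.Answers x true ∧ ¬ (fillBits (p n) x ∈ U ↔ c = true)} => z.1) hxy)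
  have hexp : C * ((2 * E + 2) * (d + 1) + 1) ≤ (6 * C + 1) * (E + 1) * (d + 1) := by
    have h2 : (2 * E + 2) * (d + 1) + 1 ≤ 6 * ((E + 1) * (d + 1)) := by nlinarith
    calc C * ((2 * E + 2) * (d + 1) + 1) ≤ C * (6 * ((E + 1) * (d + 1))) :=
          Nat.mul_le_mul_left _ h2
      _ = 6 * C * (E + 1) * (d + 1) := by ring
      _ ≤ (6 * C + 1) * (E + 1) * (d + 1) := by gcongr; omega
  calc 2 ^ E * Nat.card {x // P.AcceptsDim d x}
      ≤ 2 ^ ((2 * E + 2) * (d + 1)) *
          Nat.card {x // (prog P (d + 1) (by omega)).Accepts x} := by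
        refine Nat.mul_le_mul (Nat.pow_le_pow_right (by norm_num) ?_) hacc
        nlinarith [Nat.zero_le d, Nat.zero_le (E * d)]
    _ ≤ _ := h1
    _ ≤ 2 ^ n + n ^ ((6 * C + 1) * (E + 1) * (d + 1)) *
          Nat.card {x // P.Answers x true ∧ ¬ (fillBits (p n) x ∈ U ↔ c = true)} :=
        Nat.add_le_add_left (Nat.mul_le_mul (Nat.pow_le_pow_right (by omega) hexp) herr) _

end Pool.Agent.V8H39.TV
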