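import Mathlib
import Pool.Agent.V8H45.TE.MainE
import Pool.Agent.V8H39.TV.Dim

/-!
# Two disjoint sets which cannot be separated
-/

set_option autoImplicit false

open Finset

namespace Pool.Agent.V8H39.TV

open Pool.Agent.V8H39.SR Pool.Agent.V8H47.MH Pool.Agent.V8H45.TE

theorem numS {q Q c E T n s : ℕ} (hE : 1 ≤ E) (hc1 : 1 ≤ c) (hQ : 1 ≤ Q) (hq2 : q = 2 * (q / 2))
    (hQq : (4 * Q) ^ 8 ≤ q) (hc : 32 * T * 2 ^ c ≤ q) (hn : n ≤ q ^ 2) (hs : s ≤ n ^ E) :
    32 * T * (2 * s ^ 2) ^ c * q ^ (8 * E * c + 4 + 3) ≤ (q / 2 / Q) ^ (2 * (8 * E * c + 4)) := by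
  obtain ⟨r, hr⟩ : ∃ r, r = q / 2 / Q := ⟨_, rfl⟩
  rw [← hr]
  have hQ2 : (4 * Q) ^ 2 ≤ q := (Nat.pow_le_pow_right (by omega) (by norm_num)).trans hQq
  have hr1 : 1 ≤ r := by
    rw [hr]
    refine (Nat.le_div_iff_mul_le hQ).2 ?_
    have : (4 * Q) ^ 2 = 16 * (Q * Q) := by ring
    have h2 : Q * 1 ≤ Q * Q := Nat.mul_le_mul_left _ hQ
    omega
  have h1 : q / 2 < Q * (r + 1) := by
    rw [hr]
    exact Nat.lt_mul_div_succ _ hQ
  have h2 : q ≤ 4 * Q * r := by
    have h3 : Q * 1 ≤ Q * r := Nat.mul_le_mul_left _ hr1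
    have h4 : Q * (r + 1) = Q * r + Q := by ring
    have h5 : 4 * Q * r = 4 * (Q * r) := by ring
    omega
  have hq1 : 1 ≤ q := by
    have : 1 ≤ (4 * Q) ^ 8 := Nat.one_le_pow _ _ (by omega)
    omega
  have h3 : q ^ 7 ≤ r ^ 8 := by
    have hpos : 0 < (4 * Q) ^ 8 := by positivity
    refine Nat.le_of_mul_le_mul_left ?_ hpos
    calc (4 * Q) ^ 8 * q ^ 7 ≤ q * q ^ 7 := Nat.mul_le_mul_right _ hQq
      _ = q ^ 8 := by ring
      _ ≤ (4 * Q * r) ^ 8 := Nat.pow_le_pow_left h2 8
      _ = (4 * Q) ^ 8 * r ^ 8 := by ring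
  calc 32 * T * (2 * s ^ 2) ^ c * q ^ (8 * E * c + 4 + 3)
      ≤ 32 * T * (2 * ((q ^ 2) ^ E) ^ 2) ^ c * q ^ (8 * E * c + 4 + 3) := by
        have : s ≤ (q ^ 2) ^ E := hs.trans (Nat.pow_le_pow_left hn E)
        gcongr
    _ = (32 * T * 2 ^ c) * q ^ (12 * E * c + 7) := by
        rw [mul_pow, ← pow_mul, ← pow_mul, ← pow_mul]
        have e1 : 12 * E * c + 7 = 2 * (E * (2 * c)) + (8 * E * c + 4 + 3) := by ring
        rw [e1, pow_add]
        ring
    _ ≤ q * q ^ (12 * E * c + 7) := Nat.mul_le_mul_right _ hc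
    _ = q ^ (12 * E * c + 8) := by ring
    _ ≤ q ^ (7 * (2 * E * c + 1)) := Nat.pow_le_pow_right hq1 (by
        have : 7 * (2 * E * c + 1) = 14 * (E * c) + 7 := by ring
        have h5 : 12 * E * c + 8 = 12 * (E * c) + 8 := by ring
        have h6 : 1 ≤ E * c := Nat.mul_pos hE hc1
        omega)
    _ = (q ^ 7) ^ (2 * E * c + 1) := by rw [pow_mul]
    _ ≤ (r ^ 8) ^ (2 * E * c + 1) := Nat.pow_le_pow_left h3 _
    _ = r ^ (2 * (8 * E * c + 4)) := by rw [← pow_mul]; congr 1; ring

/-- two values for which most inputs are nice -/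
theorem two_targets {D h E : ℕ} {F : Type} [Field F] [Fintype F] [DecidableEq F] [CharP F 2]
    (hC : 4 * E * ((h + 1) * nodes D h) ≤ Fintype.card F) :
    ∃ t t' : F, t ≠ t' ∧
      2 * E * Nat.card {x : Var D F h → Bool // ¬ Nice h x ∧ val h x = t} ≤
        Nat.card {x : Var D F h → Bool // val h x = t} ∧
      2 * E * Nat.card {x : Var D F h → Bool // ¬ Nice h x ∧ val h x = t'} ≤
        Nat.card {x : Var D F h → Bool // val h x = t'} := by
  classical
  obtain ⟨V, hV⟩ : ∃ V, V = Nat.card {x : Var D F h → Bool // val h x = 0} := ⟨_, rfl⟩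
  have hall : ∀ t : F, Nat.card {x : Var D F h → Bool // val h x = t} = V := by
    intro t
    have := card_val (D := D) h (0 : F) t
    rw [zero_add] at this
    rw [hV, this]
  have hVq : V * Fintype.card F = 2 ^ Fintype.card (Var D F h) := by
    have h1 := card_mem (D := D) h ({0} : Finset F)
    simp only [mem_singleton, card_singleton, one_mul] at h1
    rw [hV, h1]
  have hq0 : 2 ≤ Fintype.card F := by
    have := Fintype.one_lt_card (α := F)
    omega
  set bad : F → ℕ := fun t => Nat.card {x : Var D F h → Bool // ¬ Nice h x ∧ val h x = t}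
    with hbad
  have hsum : ∑ t, bad t = Nat.card {x : Var D F h → Bool // ¬ Nice h x} :=
    card_fiber (val (D := D) (F := F) h) (fun x => ¬ Nice h x)
  set G : Finset F := univ.filter fun t => 2 * E * bad t ≤ V with hG
  have hG1 : 1 < G.card := by
    by_contra hcon
    have h1 : Fintype.card F - 1 ≤ (Gᶜ).card := by
      rw [card_compl]
      omega
    have h2 : (Gᶜ).card * (V + 1) ≤ ∑ t ∈ Gᶜ, 2 * E * bad t := by
      rw [← smul_eq_mul, ← sum_const]
      refine sum_le_sum fun t ht => ?_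
      have : ¬ 2 * E * bad t ≤ V := fun h => (mem_compl.1 ht) (mem_filter.2 ⟨mem_univ _, h⟩)
      omega
    have h3 : ∑ t ∈ Gᶜ, 2 * E * bad t ≤ 2 * E * Nat.card {x : Var D F h → Bool // ¬ Nice h x} := by
      rw [← hsum, mul_sum]
      exact sum_le_sum_of_subset (subset_univ _)
    have h4 := nice_count_le D h F
    rw [← hVq] at h4
    have h5 : (Fintype.card F - 1) * (V + 1) ≤
        2 * E * ((h + 1) * nodes D h) * V := by
      have hq1 : 0 < Fintype.card F := by omega
      refine Nat.le_of_mul_le_mul_right ?_ hq1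
      calc (Fintype.card F - 1) * (V + 1) * Fintype.card F
          ≤ (Gᶜ).card * (V + 1) * Fintype.card F :=
            Nat.mul_le_mul_right _ (Nat.mul_le_mul_right _ h1)
        _ ≤ 2 * E * Nat.card {x : Var D F h → Bool // ¬ Nice h x} * Fintype.card F :=
            Nat.mul_le_mul_right _ (h2.trans h3)
        _ = 2 * E * (Nat.card {x : Var D F h → Bool // ¬ Nice h x} * Fintype.card F) := by ring
        _ ≤ 2 * E * ((h + 1) * nodes D h * (V * Fintype.card F)) := Nat.mul_le_mul_left _ h4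
        _ = 2 * E * ((h + 1) * nodes D h) * V * Fintype.card F := by ring
    have h6 : 2 * (2 * E * ((h + 1) * nodes D h) * V) ≤ Fintype.card F * V := by
      calc 2 * (2 * E * ((h + 1) * nodes D h) * V) = 4 * E * ((h + 1) * nodes D h) * V := by ring
        _ ≤ _ := Nat.mul_le_mul_right _ hC
    have h7 : Fintype.card F * (V + 1) ≤ 2 * ((Fintype.card F - 1) * (V + 1)) := by
      rw [← mul_assoc]
      exact Nat.mul_le_mul_right _ (by omega)
    have h8 : Fintype.card F * (V + 1) = Fintype.card F * V + Fintype.card F := by ring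
    omega
  obtain ⟨t, ht, t', ht', hne⟩ := Finset.one_lt_card.1 hG1
  refine ⟨t, t', hne, ?_, ?_⟩
  · rw [hall]
    exact (mem_filter.1 ht).2
  · rw [hall]
    exact (mem_filter.1 ht').2

/-- machines for the tree function -/
theorem lower_accS {D : ℕ} {F : Type} [Field F] [Fintype F] [DecidableEq F] [CharP F 2]
    {h k m r E : ℕ} (hD : D = DD (8 * k)) (hr : 1 ≤ r) (hm : 1 ≤ m)
    (hh : 2 ^ (8 * k * (8 * k)) * (2 * m) * 2 + 1 ≤ h)
    (hq : 2 * (r * GG (8 * k) ^ h) ≤ Fintype.card F) (P : Mach (Var D F h)) (hs : P.Storeless)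
    (κ : Var D F h → ℕ) (hκ : ∑ v, κ v ≤ k * Fintype.card (Var D F h))
    (hp : ∀ L, P.Path L true → ∀ v, L.count v ≤ κ v) (t t' : F)
    (hbad : 2 * E * Nat.card {x : Var D F h → Bool // ¬ Nice h x ∧ val h x = t} ≤
      Nat.card {x : Var D F h → Bool // val h x = t})
    (hnum : 32 * E * (2 * Fintype.card P.Conf ^ 2) ^ (2 * (8 * k) + 1) * Fintype.card F ^ (m + 3) ≤
      r ^ (2 * m)) :
    E * Nat.card {x // P.Answers x true ∧ val h x = t} ≤
      Nat.card {x : Var D F h → Bool // val h x = t} +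
      2 * E * (2 * Fintype.card P.Conf ^ 2) ^ (2 * (8 * k) + 1) * Fintype.card F *
        Nat.card {x // P.Answers x true ∧ val h x = t'} := by
  classical
  have hlow := lower_varE hD hr hm hh hq P hs κ hκ hp ({t'} : Finset F)
  have hq0 : 0 < Fintype.card F := Fintype.card_pos
  have hVq := card_mem (D := D) h ({t} : Finset F)
  simp only [mem_singleton, card_singleton, one_mul] at hlow hVq
  obtain ⟨c, hc⟩ : ∃ c, c = (2 * Fintype.card P.Conf ^ 2) ^ (2 * (8 * k) + 1) := ⟨_, rfl⟩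
  rw [← hc] at hlow hnum
  rw [← hc]
  obtain ⟨a, ha⟩ : ∃ a, a = Nat.card {x // P.Answers x true ∧ Nice h x} := ⟨_, rfl⟩
  obtain ⟨W, hW⟩ : ∃ W, W = Nat.card {x // P.Answers x true ∧ val h x = t'} := ⟨_, rfl⟩
  obtain ⟨N, hN⟩ : ∃ N, N = 2 ^ Fintype.card (Var D F h) := ⟨_, rfl⟩
  obtain ⟨V, hV⟩ : ∃ V, V = Nat.card {x : Var D F h → Bool // val h x = t} := ⟨_, rfl⟩
  obtain ⟨R, hR⟩ : ∃ R, R = r ^ (2 * m) := ⟨_, rfl⟩
  obtain ⟨q, hqq⟩ : ∃ q, q = Fintype.card F := ⟨_, rfl⟩
  rw [← ha, ← hN, ← hW, ← hR, ← hqq] at hlow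
  rw [← hV, ← hN, ← hqq] at hVq
  rw [← hR, ← hqq] at hnum
  rw [← hV] at hbad
  rw [← hW, ← hV, ← hqq]
  rw [← hqq] at hq0
  have hRpos : 0 < R := by rw [hR]; positivity
  have hX : 2 * E * a ≤ V + 4 * E * c * q * W := by
    refine Nat.le_of_mul_le_mul_right ?_ (Nat.mul_pos hq0 hRpos)
    have h1 : N * (8 * E * c * q ^ (m + 3)) ≤ N * R := by
      refine Nat.mul_le_mul_left _ (le_trans ?_ hnum)
      have : 8 * E * c * q ^ (m + 3) * 4 = 32 * E * c * q ^ (m + 3) := by ring
      omega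
    calc 2 * E * a * (q * R)
        = 2 * E * q * (a * R) := by ring
      _ ≤ 2 * E * q * (c * (N * (4 * q ^ (m + 2)) + 2 * q * R * W)) :=
          Nat.mul_le_mul_left _ hlow
      _ = N * (8 * E * c * q ^ (m + 3)) + 4 * E * c * q * W * (q * R) := by ring
      _ ≤ N * R + 4 * E * c * q * W * (q * R) := Nat.add_le_add_right h1 _
      _ = (V + 4 * E * c * q * W) * (q * R) := by rw [← hVq]; ring
  have hsplit : Nat.card {x // P.Answers x true ∧ val h x = t} ≤ a +
      Nat.card {x : Var D F h → Bool // ¬ Nice h x ∧ val h x = t} := by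
    rw [ha, ← Nat.card_sum]
    refine Nat.card_le_card_of_injective (fun x : {x // P.Answers x true ∧ val h x = t} =>
      if hx : Nice h x.1 then Sum.inl ⟨x.1, x.2.1, hx⟩ else Sum.inr ⟨x.1, hx, x.2.2⟩) ?_
    intro x y hxy
    dsimp only at hxy
    split_ifs at hxy with h1 h2 h3
    · exact Subtype.ext (congrArg (fun z => z.1) (Sum.inl.inj hxy))
    · exact Subtype.ext (congrArg (fun z => z.1) (Sum.inr.inj hxy))
  have h3 : 2 * (E * Nat.card {x // P.Answers x true ∧ val h x = t}) ≤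
      2 * (V + 2 * E * c * q * W) := by
    calc 2 * (E * Nat.card {x // P.Answers x true ∧ val h x = t})
        ≤ 2 * (E * (a + Nat.card {x : Var D F h → Bool // ¬ Nice h x ∧ val h x = t})) :=
          Nat.mul_le_mul_left _ (Nat.mul_le_mul_left _ hsplit)
      _ = 2 * E * a + 2 * E * Nat.card {x : Var D F h → Bool // ¬ Nice h x ∧ val h x = t} := by ring
      _ ≤ (V + 4 * E * c * q * W) + V := Nat.add_le_add hX hbad
      _ = 2 * (V + 2 * E * c * q * W) := by ring
  omega

/-- Programs without a store with at most `n ^ E` configurations and `k * n` reads accept at most a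
part `1 / 2 ^ E` of the elements of `L`, if they accept few elements of `L'`. -/
def HardS (k E K n : ℕ) (L L' : (Fin n → Bool) → Prop) : Prop :=
  ∀ P : Mach (Fin n), P.Storeless →
    (∃ κ : Fin n → ℕ, ∑ v, κ v ≤ k * n ∧ ∀ l, P.Path l true → ∀ v, l.count v ≤ κ v) →
    Fintype.card P.Conf ≤ n ^ E → 2 ^ E * Nat.card {x // P.Answers x true ∧ L x} ≤
      Nat.card {x // L x} + K * Nat.card {x // P.Answers x true ∧ L' x}

/-- padding -/
theorem hard_of_varS {D : ℕ} {F : Type} [Field F] [Fintype F] [DecidableEq F]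
    {h k n E K : ℕ} (e : Var D F h ↪ Fin n) (hn : n ≤ 2 * Fintype.card (Var D F h))
    (U U' : Finset F)
    (hlow : ∀ P : Mach (Var D F h), P.Storeless →
      ∀ κ : Var D F h → ℕ, ∑ v, κ v ≤ 2 * k * Fintype.card (Var D F h) →
      (∀ L, P.Path L true → ∀ v, L.count v ≤ κ v) → Fintype.card P.Conf ≤ n ^ E →
      2 ^ E * Nat.card {x // P.Answers x true ∧ val h x ∈ U} ≤
        Nat.card {x : Var D F h → Bool // val h x ∈ U} +
        K * Nat.card {x // P.Answers x true ∧ val h x ∈ U'}) :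
    HardS k E K n (fun x => val h (fun v => x (e v)) ∈ U)
      (fun x => val h (fun v => x (e v)) ∈ U') := by
  classical
  rintro P hs ⟨κ, hκ1, hκ2⟩ hconf
  have hcomb : ∀ (x : Var D F h → Bool) (y : Fin n → Bool),
      (fun v => comb e x y (e v)) = x := by
    intro x y
    funext v
    exact comb_in e _ _ v
  have hy : ∀ y : Fin n → Bool, 2 ^ E * Nat.card {x : Var D F h → Bool //
      P.Answers (comb e x y) true ∧ val h (fun v => comb e x y (e v)) ∈ U} ≤
        Nat.card {x : Var D F h → Bool // val h (fun v => comb e x y (e v)) ∈ U} +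
        K * Nat.card {x : Var D F h → Bool // P.Answers (comb e x y) true ∧
          val h (fun v => comb e x y (e v)) ∈ U'} := by
    intro y
    obtain ⟨P', hs', hc', ha', hp'⟩ := restrict e P hs y
    have hans : ∀ x b, P'.Answers x b ↔ P.Answers (comb e x y) b := fun x b =>
      ha' x (comb e x y) (fun v => comb_in e x y v) (fun w hw => comb_out e x y w hw) b
    have h1 : ∀ U : Finset F, Nat.card {x : Var D F h → Bool // P.Answers (comb e x y) true ∧
          val h (fun v => comb e x y (e v)) ∈ U} =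
        Nat.card {x // P'.Answers x true ∧ val h x ∈ U} := by
      intro U
      refine Nat.card_congr (Equiv.subtypeEquivRight fun x => ?_)
      rw [hans, hcomb]
    have h2 : Nat.card {x : Var D F h → Bool // val h (fun v => comb e x y (e v)) ∈ U} =
        Nat.card {x : Var D F h → Bool // val h x ∈ U} := by
      refine Nat.card_congr (Equiv.subtypeEquivRight fun x => ?_)
      rw [hcomb]
    rw [h1, h1, h2]
    refine hlow P' hs' (fun v => κ (e v)) ?_ ?_ (by rw [hc']; exact hconf)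
    · calc ∑ v, κ (e v) = ∑ w ∈ univ.map e, κ w := (sum_map _ _ _).symm
        _ ≤ ∑ w, κ w := sum_le_sum_of_subset (subset_univ _)
        _ ≤ k * n := hκ1
        _ ≤ k * (2 * Fintype.card (Var D F h)) := Nat.mul_le_mul_left _ hn
        _ = 2 * k * Fintype.card (Var D F h) := by ring
    · intro L hL' v
      obtain ⟨L', h3, h4⟩ := hp' L true hL'
      rw [h4]
      exact hκ2 L' h3 _
  have hpos : 0 < 2 ^ Fintype.card (Var D F h) := by positivity
  refine Nat.le_of_mul_le_mul_right ?_ hpos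
  have e1 := count_ext e (fun z => P.Answers z true ∧ val h (fun v => z (e v)) ∈ U)
  have e2 := count_ext e (fun z => P.Answers z true ∧ val h (fun v => z (e v)) ∈ U')
  have e3 := count_ext e (fun z => val h (fun v => z (e v)) ∈ U)
  rw [mul_assoc, e1, add_mul, mul_assoc, e2, e3, mul_sum, mul_sum, ← sum_add_distrib]
  exact sum_le_sum fun y _ => hy y

/-- the number of inputs with a value in `T` -/
theorem card_ext {D : ℕ} {F : Type} [Field F] [Fintype F] [DecidableEq F] [CharP F 2]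
    (h n : ℕ) (e : Var D F h ↪ Fin n) (T : Finset F) :
    Nat.card {x : Fin n → Bool // val h (fun v => x (e v)) ∈ T} * Fintype.card F =
      T.card * 2 ^ n := by
  classical
  have h1 := count_ext e (fun z : Fin n → Bool => val h (fun v => z (e v)) ∈ T)
  have h2 : ∀ y : Fin n → Bool,
      Nat.card {x : Var D F h → Bool // val h (fun v => comb e x y (e v)) ∈ T} =
      Nat.card {x : Var D F h → Bool // val h x ∈ T} := by
    intro y
    refine Nat.card_congr (Equiv.subtypeEquivRight fun x => ?_)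
    have : (fun v => comb e x y (e v)) = x := by
      funext v
      exact comb_in e _ _ v
    rw [this]
  rw [Finset.sum_congr rfl fun y _ => h2 y, sum_const, card_univ, Fintype.card_fun,
    Fintype.card_bool, Fintype.card_fin, smul_eq_mul] at h1
  have h3 := card_mem (D := D) h T
  obtain ⟨a, ha⟩ : ∃ a, a = Nat.card {x : Var D F h → Bool // val h x ∈ T} := ⟨_, rfl⟩
  obtain ⟨b, hb⟩ : ∃ b, b = Nat.card {x : Fin n → Bool // val h (fun v => x (e v)) ∈ T} :=
    ⟨_, rfl⟩
  obtain ⟨N, hN⟩ : ∃ N, N = 2 ^ Fintype.card (Var D F h) := ⟨_, rfl⟩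
  rw [← ha, ← hN] at h3
  rw [← ha, ← hb, ← hN] at h1
  rw [← hb]
  have hNpos : 0 < N := by
    rw [hN]
    positivity
  refine Nat.eq_of_mul_eq_mul_right hNpos ?_
  calc b * Fintype.card F * N = b * N * Fintype.card F := by ring
    _ = 2 ^ n * a * Fintype.card F := by rw [h1]
    _ = 2 ^ n * (a * Fintype.card F) := by ring
    _ = T.card * 2 ^ n * N := by rw [h3]; ring

/-- The size of the field that is needed. -/
theorem hard_fieldS (x : Par) (hxE : 1 ≤ x.E) (F : Type) [Field F] [Fintype F] [DecidableEq F]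
    [CharP F 2] (n : ℕ) (hq2 : 2 ∣ Fintype.card F) (hB : BE x ≤ Fintype.card F)
    (hn : n ≤ 2 * Fintype.card (Var x.D F x.h)) (e : Var x.D F x.h ↪ Fin n) :
    ∃ t t' : F, t ≠ t' ∧ ∀ E' ≤ x.E,
      HardS x.w E' (KK x.w E' n * n) n (fun y => val x.h (fun v => y (e v)) ∈ ({t} : Finset F))
        (fun y => val x.h (fun v => y (e v)) ∈ ({t'} : Finset F)) ∧
      HardS x.w E' (KK x.w E' n * n) n (fun y => val x.h (fun v => y (e v)) ∈ ({t'} : Finset F))
        (fun y => val x.h (fun v => y (e v)) ∈ ({t} : Finset F)) := by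
  have hQ1 := x.Q_pos
  have hnod := nodes_pos x.D x.h
  have hq2' : Fintype.card F = 2 * (Fintype.card F / 2) := by omega
  have p1 : 1 ≤ (4 * x.Q) ^ 8 := Nat.one_le_pow _ _ (by omega)
  have p2 : 1 ≤ 32 * 2 ^ x.E * 2 ^ x.c := Nat.one_le_iff_ne_zero.2 (by positivity)
  have p3 : 1 ≤ (x.h + 1) * nodes x.D x.h := Nat.mul_pos (by omega) hnod
  have b1 : (4 * x.Q) ^ 8 ≤ BE x := by
    calc (4 * x.Q) ^ 8 = (4 * x.Q) ^ 8 * 1 * 1 * 1 := by ring
      _ ≤ BE x := by
        unfold BE
        gcongr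
        norm_num
  have b2 : 32 * 2 ^ x.E * 2 ^ x.c * ((x.h + 1) * nodes x.D x.h) * 2 ≤ BE x := by
    calc 32 * 2 ^ x.E * 2 ^ x.c * ((x.h + 1) * nodes x.D x.h) * 2 =
          1 * (32 * 2 ^ x.E * 2 ^ x.c) * ((x.h + 1) * nodes x.D x.h) * 2 := by ring
      _ ≤ BE x := by
        unfold BE
        gcongr
  have b3 : 4 * 2 ^ x.E * ((x.h + 1) * nodes x.D x.h) ≤ BE x := by
    refine le_trans ?_ b2
    calc 4 * 2 ^ x.E * ((x.h + 1) * nodes x.D x.h) =
          4 * 2 ^ x.E * 1 * ((x.h + 1) * nodes x.D x.h) * 1 := by ring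
      _ ≤ 32 * 2 ^ x.E * 2 ^ x.c * ((x.h + 1) * nodes x.D x.h) * 2 := by
        have : 1 ≤ 2 ^ x.c := Nat.one_le_two_pow
        gcongr
        · norm_num
        · norm_num
  have b4 : 32 * 2 ^ x.E * 2 ^ x.c ≤ BE x := by
    refine le_trans ?_ b2
    calc 32 * 2 ^ x.E * 2 ^ x.c = 32 * 2 ^ x.E * 2 ^ x.c * 1 * 1 := by ring
      _ ≤ 32 * 2 ^ x.E * 2 ^ x.c * ((x.h + 1) * nodes x.D x.h) * 2 := by
        gcongr
        norm_num
  have b5 : 2 * nodes x.D x.h ≤ BE x := by
    refine le_trans ?_ b2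
    calc 2 * nodes x.D x.h = 1 * (1 * nodes x.D x.h) * 2 := by ring
      _ ≤ 32 * 2 ^ x.E * 2 ^ x.c * ((x.h + 1) * nodes x.D x.h) * 2 := by
        gcongr
        omega
  obtain ⟨t, t', hne, ht, ht'⟩ := two_targets (D := x.D) (h := x.h) (E := 2 ^ x.E) (F := F)
    (b3.trans hB)
  have hn1 : 1 ≤ n := by
    rcases Nat.eq_zero_or_pos n with h0 | h0
    · subst h0
      have hv : 0 < Fintype.card (Var x.D F x.h) := by
        rw [card_var]
        exact Nat.mul_pos Fintype.card_pos hnod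
      obtain ⟨v⟩ := Fintype.card_pos_iff.1 hv
      exact (e v).elim0
    · exact h0
  have hqn : Fintype.card F ≤ n := by
    have h1 := Fintype.card_le_of_embedding e
    rw [card_var, Fintype.card_fin] at h1
    exact (Nat.le_mul_of_pos_right _ hnod).trans h1
  have hmain : ∀ t t' : F, 2 * 2 ^ x.E * Nat.card {y : Var x.D F x.h → Bool //
      ¬ Nice x.h y ∧ val x.h y = t} ≤ Nat.card {y : Var x.D F x.h → Bool // val x.h y = t} →
      ∀ E' ≤ x.E, HardS x.w E' (KK x.w E' n * n) n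
        (fun y => val x.h (fun v => y (e v)) ∈ ({t} : Finset F))
        (fun y => val x.h (fun v => y (e v)) ∈ ({t'} : Finset F)) := by
    intro t t' ht E' hE'
    have hpow : 2 ^ E' ≤ 2 ^ x.E := Nat.pow_le_pow_right (by norm_num) hE'
    refine hard_of_varS e hn {t} {t'} ?_
    intro P hs κ hκ1 hκ2 hconf
    have hconf' : Fintype.card P.Conf ≤ n ^ x.E := hconf.trans (Nat.pow_le_pow_right hn1 hE')
    have hfin := lower_accS (k := 2 * x.w) (m := x.m) (r := Fintype.card F / 2 / x.Q)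
      (E := 2 ^ E') rfl ?_ (by unfold Par.m; omega)
      (le_refl _) ?_ P hs κ hκ1 hκ2 t t'
      ((Nat.mul_le_mul_right _ (Nat.mul_le_mul_left _ hpow)).trans ht) ?_
    · simp only [mem_singleton]
      refine hfin.trans (Nat.add_le_add_left (Nat.mul_le_mul_right _ ?_) _)
      unfold KK
      gcongr
      norm_num
    · refine (Nat.le_div_iff_mul_le hQ1).2 ?_
      have h0 : (4 * x.Q) ^ 2 ≤ (4 * x.Q) ^ 8 := Nat.pow_le_pow_right (by omega) (by norm_num)
      have : (4 * x.Q) ^ 2 = 16 * (x.Q * x.Q) := by ring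
      have h2 : x.Q * 1 ≤ x.Q * x.Q := Nat.mul_le_mul_left _ hQ1
      omega
    · change 2 * (_ * x.Q) ≤ _
      have h1 := Nat.div_mul_le_self (Fintype.card F / 2) x.Q
      omega
    · refine le_trans (Nat.mul_le_mul_right _ (Nat.mul_le_mul_right _ (Nat.mul_le_mul_left _ hpow)))
        (numS hxE (by omega) hQ1 hq2' (b1.trans hB) (b4.trans hB) (n := n) ?_ hconf')
      refine hn.trans ?_
      rw [card_var]
      calc 2 * (Fintype.card F * nodes x.D x.h) = Fintype.card F * (2 * nodes x.D x.h) := by ring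
        _ ≤ Fintype.card F * Fintype.card F := Nat.mul_le_mul_left _ (b5.trans hB)
        _ = _ := by ring
  exact ⟨t, t', hne, fun E' hE' => ⟨hmain t t' ht E' hE', hmain t' t ht' E' hE'⟩⟩

end Pool.Agent.V8H39.TV
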