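import Mathlib
import Pool.Agent.V8H39.TV.Sep

/-!
# Two disjoint sets which cannot be separated: the main theorem
-/

set_option autoImplicit false

open Finset

namespace Pool.Agent.V8H39.TV

open Pool.Agent.V8H39.SR Pool.Agent.V8H47.MH Pool.Agent.V8H45.TE Pool.Agent.V8H45.TS

/-- the properties of the two sets -/
def Pair (n E : ℕ) (L L' : (Fin n → Bool) → Prop) : Prop :=
  (∀ y, ¬ (L y ∧ L' y)) ∧ Nat.card {y // L y} = Nat.card {y // L' y} ∧ 0 < Nat.card {y // L y} ∧
    2 ^ E * Nat.card {y // L y} ≤ 2 ^ n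

/-- the construction for all numbers of bits that are not too small -/
theorem hard_allS (Q : ∀ n, ((Fin n → Bool) → Prop) → Prop)
    (hQ' : ∀ (D h n : ℕ) (F : Type) [Field F] [Fintype F] [DecidableEq F],
      Fintype.card (Var D F h) ≤ n → ∃ e : Var D F h ↪ Fin n, ∀ T : Finset F,
        Q n (fun x => val h (fun v => x (e v)) ∈ T)) (x : Par) (hxE : 1 ≤ x.E) (n : ℕ)
    (hn : XE x ≤ n) :
    ∃ L L', Q n L ∧ Q n L' ∧ Pair n x.E L L' ∧
      ∀ E' ≤ x.E, HardS x.w E' (KK x.w E' n * n) n L L' ∧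
        HardS x.w E' (KK x.w E' n * n) n L' L := by
  have hnod := nodes_pos x.D x.h
  obtain ⟨b, hb⟩ : ∃ b, b = Nat.log 2 (n / nodes x.D x.h) := ⟨_, rfl⟩
  have hEB : 2 ^ x.E * 2 ≤ BE x := by
    unfold BE
    have p1 : 1 ≤ (4 * x.Q) ^ 8 := Nat.one_le_pow _ _ (by have := x.Q_pos; omega)
    have p2 : 2 ^ x.E ≤ 32 * 2 ^ x.E * 2 ^ x.c := by
      calc 2 ^ x.E = 1 * 2 ^ x.E * 1 := by ring
        _ ≤ 32 * 2 ^ x.E * 2 ^ x.c := by
          have : 1 ≤ 2 ^ x.c := Nat.one_le_two_pow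
          gcongr
          norm_num
    have p3 : 1 ≤ (x.h + 1) * nodes x.D x.h := Nat.mul_pos (by omega) hnod
    refine Nat.mul_le_mul_right _ ?_
    calc 2 ^ x.E = 1 * 2 ^ x.E * 1 := by ring
      _ ≤ _ := by gcongr
  have hB2 : 2 ≤ BE x := by
    have : 1 ≤ 2 ^ x.E := Nat.one_le_two_pow
    omega
  have h1 : 2 * BE x ≤ n / nodes x.D x.h := by
    refine (Nat.le_div_iff_mul_le hnod).2 (le_trans (le_of_eq ?_) hn)
    unfold XE
    ring
  have hne : n / nodes x.D x.h ≠ 0 := by omega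
  have h2 : 2 ^ b ≤ n / nodes x.D x.h := by
    rw [hb]
    exact Nat.pow_log_le_self 2 hne
  have h3 : n / nodes x.D x.h < 2 ^ (b + 1) := by
    rw [hb]
    exact Nat.lt_pow_succ_log_self (by norm_num) _
  have hBb : BE x ≤ 2 ^ b := by
    rw [pow_succ] at h3
    omega
  have hb1 : 1 ≤ b := by
    by_contra hcon
    have : b = 0 := by omega
    rw [this, pow_zero] at hBb
    omega
  obtain ⟨F, _, _, _, _, hF⟩ := exists_field b hb1
  have hcard : Fintype.card (Var x.D F x.h) = 2 ^ b * nodes x.D x.h := by rw [card_var, hF]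
  have h4 : Fintype.card (Var x.D F x.h) ≤ n := by
    rw [hcard]
    exact (Nat.le_div_iff_mul_le hnod).1 h2
  have h5 : n ≤ 2 * Fintype.card (Var x.D F x.h) := by
    rw [hcard]
    have h6 := (Nat.div_lt_iff_lt_mul hnod).1 h3
    have h7 : 2 ^ (b + 1) * nodes x.D x.h = 2 * (2 ^ b * nodes x.D x.h) := by ring
    omega
  obtain ⟨e, he⟩ := hQ' x.D x.h n F h4
  obtain ⟨t, t', htt, hard⟩ := hard_fieldS x hxE F n (by rw [hF]; exact dvd_pow_self 2 (by omega))
    (by rw [hF]; exact hBb) h5 e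
  have hq0 : 0 < Fintype.card F := Fintype.card_pos
  have hc := card_ext x.h n e ({t} : Finset F)
  have hc' := card_ext x.h n e ({t'} : Finset F)
  rw [card_singleton, one_mul] at hc hc'
  refine ⟨_, _, he {t}, he {t'}, ⟨?_, ?_, ?_, ?_⟩, hard⟩
  · rintro y ⟨hy, hy'⟩
    rw [mem_singleton] at hy hy'
    exact htt (hy.symm.trans hy')
  · exact Nat.eq_of_mul_eq_mul_right hq0 (hc.trans hc'.symm)
  · refine Nat.pos_of_ne_zero fun h0 => ?_
    rw [h0, zero_mul] at hc
    have : 0 < 2 ^ n := by positivity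
    omega
  · rw [← hc, mul_comm]
    refine Nat.mul_le_mul_left _ ?_
    rw [hF]
    omega

theorem separationS (Q : ∀ n, ((Fin n → Bool) → Prop) → Prop)
    (hQ : ∀ n, ∃ L, Q n L)
    (hQ' : ∀ (D h n : ℕ) (F : Type) [Field F] [Fintype F] [DecidableEq F],
      Fintype.card (Var D F h) ≤ n → ∃ e : Var D F h ↪ Fin n, ∀ T : Finset F,
        Q n (fun x => val h (fun v => x (e v)) ∈ T)) (k : ℕ) :
    ∃ (C : ℕ) (L : Bool → ∀ n, (Fin n → Bool) → Prop), 3 ≤ C ∧ (∀ c n, Q n (L c n)) ∧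
      ∀ n E, C * (E + 1) ≤ Nat.log 2 n → Pair n E (L true n) (L false n) ∧
        ∀ c, HardS k (E + 3) (KK k (E + 3) n * n) n (L c n) (L (!c) n) := by
  classical
  obtain ⟨M, hM⟩ := XE_le k
  have hall : ∀ n, ∃ L : Bool → (Fin n → Bool) → Prop, (∀ c, Q n (L c)) ∧
      ∀ E, (4 * M + 3) * (E + 1) ≤ Nat.log 2 n → Pair n E (L true) (L false) ∧
        ∀ c, HardS k (E + 3) (KK k (E + 3) n * n) n (L c) (L (!c)) := by
    intro n
    obtain ⟨l, hl⟩ : ∃ l, l = Nat.log 2 n := ⟨_, rfl⟩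
    rw [← hl]
    by_cases hex : 4 * M + 3 ≤ l
    · obtain ⟨E, hE⟩ : ∃ E, E = l / (4 * M + 3) - 1 := ⟨_, rfl⟩
      have h1 : 1 ≤ l / (4 * M + 3) := (Nat.le_div_iff_mul_le (by omega)).2 (by omega)
      have h2 : (4 * M + 3) * (E + 1) ≤ l := by
        have : E + 1 = l / (4 * M + 3) := by omega
        rw [this]
        exact Nat.mul_div_le _ _
      have hn0 : n ≠ 0 := by
        rintro rfl
        simp at hl
        omega
      have h5 : XE (⟨k, E + 3⟩ : Par) ≤ n := by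
        refine (hM (E + 3)).trans ?_
        calc 2 ^ (M * (E + 3 + 1)) ≤ 2 ^ l := by
              refine Nat.pow_le_pow_right (by norm_num) (le_trans ?_ h2)
              nlinarith
          _ ≤ n := by
              rw [hl]
              exact Nat.pow_log_le_self 2 hn0
      obtain ⟨L, L', hL, hL', hpair, hhard⟩ := hard_allS Q hQ' ⟨k, E + 3⟩
        (by show 1 ≤ E + 3; omega) n h5
      refine ⟨fun c => if c = true then L else L', fun c => ?_, fun E' hE' => ?_⟩
      · cases c with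
        | true => exact hL
        | false => exact hL'
      have h6 : E' + 1 ≤ l / (4 * M + 3) := (Nat.le_div_iff_mul_le (by omega)).2 (by
        rw [mul_comm]
        exact hE')
      have h7 : E' + 3 ≤ E + 3 := by omega
      refine ⟨⟨hpair.1, hpair.2.1, hpair.2.2.1, ?_⟩, fun c => ?_⟩
      · refine le_trans (Nat.mul_le_mul_right _ (Nat.pow_le_pow_right (by norm_num) ?_))
          hpair.2.2.2
        show E' ≤ E + 3
        omega
      · cases c with
        | true => exact (hhard (E' + 3) h7).1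
        | false => exact (hhard (E' + 3) h7).2
    · obtain ⟨L, hL⟩ := hQ n
      refine ⟨fun _ => L, fun _ => hL, fun E hE => absurd ?_ hex⟩
      calc 4 * M + 3 = (4 * M + 3) * 1 := (mul_one _).symm
        _ ≤ (4 * M + 3) * (E + 1) := Nat.mul_le_mul_left _ (by omega)
        _ ≤ l := hE
  choose L hL hL' using hall
  exact ⟨4 * M + 3, fun c n => L n c, by omega, fun c n => hL n c, fun n E hE => hL' n E hE⟩

/-- machines and branching programs -/
theorem nbp_boundS {k E K n : ℕ} (hn : 3 ≤ n) {L L' : (Fin n → Bool) → Prop}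
    (hL : HardS k (E + 3) K n L L')
    (B : NBP (Fin n)) (hB : Fintype.card B.Node ≤ n ^ E)
    (hκ : ∃ κ : Fin n → ℕ, ∑ v, κ v ≤ k * n ∧ ∀ l, B.Path l → ∀ v, l.count v ≤ κ v) :
    2 ^ E * Nat.card {x // B.Accepts x ∧ L x} ≤ Nat.card {x // L x} +
      K * Nat.card {x // B.Accepts x ∧ L' x} := by
  classical
  obtain ⟨κ, h2, h3⟩ := hκ
  have h4 := hL B.mach B.mach_storeless
    ⟨κ, h2, fun l hl => h3 l (B.mach_path l hl)⟩ (by
      rw [B.card_mach, Fintype.card_fin]
      have h5 : 1 ≤ n ^ E := Nat.one_le_pow _ _ (by omega)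
      have h6 : 3 + n * 4 ≤ n ^ 3 := by
        have h7 : 9 ≤ n ^ 2 := by
          calc 9 = 3 ^ 2 := by norm_num
            _ ≤ n ^ 2 := Nat.pow_le_pow_left (by omega) 2
        calc 3 + n * 4 ≤ n * 9 := by omega
          _ ≤ n * n ^ 2 := Nat.mul_le_mul_left _ h7
          _ = n ^ 3 := by ring
      calc 2 + (Fintype.card B.Node + Fintype.card B.Node * (n * 4)) ≤
            2 * n ^ E + (n ^ E + n ^ E * (n * 4)) := by
            have := Nat.mul_le_mul_right (n * 4) hB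
            omega
        _ = n ^ E * (3 + n * 4) := by ring
        _ ≤ n ^ E * n ^ 3 := Nat.mul_le_mul_left _ h6
        _ = n ^ (E + 3) := (pow_add _ _ _).symm)
  have h5 : ∀ L : (Fin n → Bool) → Prop, Nat.card {x // B.mach.Answers x true ∧ L x} =
      Nat.card {x // B.Accepts x ∧ L x} := fun L =>
    Nat.card_congr (Equiv.subtypeEquivRight fun x => by rw [B.mach_answers x])
  rw [h5, h5] at h4
  exact (Nat.mul_le_mul_right _ (Nat.pow_le_pow_right (by norm_num) (by omega))).trans h4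

/-- **The separation for branching programs.** -/
theorem mainS0 : ∃ U ∈ oneDPDA Sy, ∀ k, ∃ (C : ℕ) (p : Bool → ∀ n, List (Sy ⊕ Fin n)),
    (∀ c n, (p c n).length ≤ (n + 2) ^ 5 ∧
      (p c n).filterMap Sum.getRight? = List.finRange n) ∧
    ∀ n E, C * (E + 1) ≤ Nat.log 2 n →
      Pair n E (fun x => fillBits (p true n) x ∈ U) (fun x => fillBits (p false n) x ∈ U) ∧
      ∀ (c : Bool) (B : NBP (Fin n)), Fintype.card B.Node ≤ n ^ E →
        (∃ κ : Fin n → ℕ, ∑ v, κ v ≤ k * n ∧ ∀ L, B.Path L → ∀ v, L.count v ≤ κ v) →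
        2 ^ E * Nat.card {x // B.Accepts x ∧ fillBits (p c n) x ∈ U} ≤
          Nat.card {x : Fin n → Bool // fillBits (p c n) x ∈ U} +
          n ^ (C * (E + 1)) * Nat.card {x // B.Accepts x ∧ fillBits (p (!c) n) x ∈ U} := by
  classical
  refine ⟨Ev.lang, Ev_mem, fun k => ?_⟩
  obtain ⟨C, L, hC, hL, hhard⟩ := separationS (fun n L => ∃ p : List (Sy ⊕ Fin n),
    p.length ≤ (n + 2) ^ 5 ∧ p.filterMap Sum.getRight? = List.finRange n ∧
      ∀ x, fillBits p x ∈ Ev.lang ↔ L x) (fun n => by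
    obtain ⟨p, h1, h2, h3⟩ := dcfl_true n
    exact ⟨fun _ => True, p, h1, h2, fun x => iff_of_true (h3 x) trivial⟩)
    (fun D h n F _ _ _ hn => dcfl_patternT F D h n hn) k
  choose p hp using hL
  obtain ⟨C', hC'⟩ : ∃ C', C' = C + (6 + 7 * (2 * (8 * (2 * k)) + 1)) := ⟨_, rfl⟩
  refine ⟨C' + 1, p, fun c n => ⟨(hp c n).1, (hp c n).2.1⟩, fun n E hE => ?_⟩
  have hE' : C * (E + 1) ≤ Nat.log 2 n := (Nat.mul_le_mul_right _ (by omega)).trans hE
  have hn : 3 ≤ n := by
    have h1 : 3 * 1 ≤ C * (E + 1) := Nat.mul_le_mul hC (by omega)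
    have h2 : Nat.log 2 n ≤ n := Nat.log_le_self 2 n
    omega
  obtain ⟨hpair, hh⟩ := hhard n E hE'
  have hset : ∀ c, (fun x => fillBits (p c n) x ∈ Ev.lang) = L c n := fun c =>
    funext fun x => propext ((hp c n).2.2 x)
  have hK : KK k (E + 3) n * n ≤ n ^ ((C' + 1) * (E + 1)) := by
    have h1 : KK k (E + 3) n ≤ n ^ (C' * (E + 1)) := KK_le (by omega) (by omega)
    calc KK k (E + 3) n * n ≤ n ^ (C' * (E + 1)) * n := Nat.mul_le_mul_right _ h1
      _ = n ^ (C' * (E + 1) + 1) := (pow_succ _ _).symm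
      _ ≤ n ^ ((C' + 1) * (E + 1)) := Nat.pow_le_pow_right (by omega) (by
          rw [add_mul, one_mul]
          omega)
  refine ⟨?_, fun c B hB hκ => ?_⟩
  · rw [hset, hset]
    exact hpair
  · have h2 := nbp_boundS hn (hh c) B hB hκ
    have e1 : ∀ c, Nat.card {x // B.Accepts x ∧ fillBits (p c n) x ∈ Ev.lang} =
        Nat.card {x // B.Accepts x ∧ L c n x} := fun c =>
      Nat.card_congr (Equiv.subtypeEquivRight fun x => by rw [(hp c n).2.2 x])
    have e2 : Nat.card {x : Fin n → Bool // fillBits (p c n) x ∈ Ev.lang} =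
        Nat.card {x // L c n x} :=
      Nat.card_congr (Equiv.subtypeEquivRight fun x => (hp c n).2.2 x)
    rw [e1, e1, e2]
    exact h2.trans (Nat.add_le_add_left (Nat.mul_le_mul_right _ hK) _)

/-- **The separation.** -/
theorem mainS : ∃ U ∈ oneDPDA Sy, U ∈ twoDPDA 1 Sy ∧
    ∀ k, ∃ (C : ℕ) (p : Bool → ∀ n, List (Sy ⊕ Fin n)),
    (∀ c n, (p c n).length ≤ (n + 2) ^ 5 ∧
      (p c n).filterMap Sum.getRight? = List.finRange n) ∧
    ∀ n E d, C * (E + 1) * (d + 1) ≤ Nat.log 2 n →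
      (∀ x, ¬ (fillBits (p true n) x ∈ U ∧ fillBits (p false n) x ∈ U)) ∧
      Nat.card {x : Fin n → Bool // fillBits (p true n) x ∈ U} =
        Nat.card {x : Fin n → Bool // fillBits (p false n) x ∈ U} ∧
      ∀ c, 0 < Nat.card {x : Fin n → Bool // fillBits (p c n) x ∈ U} ∧
        2 ^ E * Nat.card {x : Fin n → Bool // fillBits (p c n) x ∈ U} ≤ 2 ^ n ∧
        ∀ P : Mach (Fin n), Fintype.card P.Conf ≤ n ^ E →
        (∃ κ : Fin n → ℕ, ∑ v, κ v ≤ k * n ∧ ∀ L, P.Path L true → ∀ v, L.count v ≤ κ v) →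
        2 ^ E * Nat.card {x // P.AcceptsDim d x ∧ fillBits (p c n) x ∈ U} ≤
          Nat.card {x : Fin n → Bool // fillBits (p c n) x ∈ U} +
          n ^ (C * (E + 1) * (d + 1)) *
            Nat.card {x // P.Answers x true ∧ fillBits (p (!c) n) x ∈ U} := by
  classical
  obtain ⟨U, hU, hmain⟩ := mainS0
  refine ⟨U, hU, oneDPDA_two hU, fun k => ?_⟩
  obtain ⟨C, p, hp, hC⟩ := hmain k
  refine ⟨6 * C + 1, p, hp, fun n E d hE => ?_⟩
  obtain ⟨hn, hE1⟩ := exponentD hE
  obtain ⟨⟨hdis, heq, hpos, hsmall⟩, hmach⟩ := hC n _ hE1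
  have hEE : E ≤ (2 * E + 2) * (d + 1) := by
    nlinarith [Nat.zero_le d, Nat.zero_le (E * d)]
  refine ⟨hdis, heq, fun c => ⟨?_, ?_, fun P hP hκ => ?_⟩⟩
  · cases c with
    | true => exact hpos
    | false => rw [← heq]; exact hpos
  · have h0 : 2 ^ ((2 * E + 2) * (d + 1)) *
        Nat.card {x : Fin n → Bool // fillBits (p c n) x ∈ U} ≤ 2 ^ n := by
      cases c with
      | true => exact hsmall
      | false => rw [← heq]; exact hsmall
    exact (Nat.mul_le_mul_right _ (Nat.pow_le_pow_right (by norm_num) hEE)).trans h0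
  obtain ⟨κ, hκ1, hκ2⟩ := hκ
  have h1 := hmach c (prog P (d + 1) (by omega))
    ((card_nd P _).trans (size_bound hn hP))
    ⟨κ, hκ1, fun L hL v => by
      obtain ⟨L', h2, h3⟩ := path_of_prog hL
      rw [h3.count_eq]
      exact hκ2 L' h2 v⟩
  have hacc : Nat.card {x // P.AcceptsDim d x ∧ fillBits (p c n) x ∈ U} ≤
      Nat.card {x // (prog P (d + 1) (by omega)).Accepts x ∧ fillBits (p c n) x ∈ U} :=
    Nat.card_le_card_of_injective
      (fun x : {x // P.AcceptsDim d x ∧ fillBits (p c n) x ∈ U} =>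
        (⟨x.1, prog_accepts_dim le_rfl x.2.1, x.2.2⟩ :
        {x // (prog P (d + 1) (by omega)).Accepts x ∧ fillBits (p c n) x ∈ U})) fun x y hxy =>
          Subtype.ext (congrArg (fun z : {x // (prog P (d + 1) (by omega)).Accepts x ∧
            fillBits (p c n) x ∈ U} => z.1) hxy)
  have herr : Nat.card {x // (prog P (d + 1) (by omega)).Accepts x ∧
      fillBits (p (!c) n) x ∈ U} ≤
      Nat.card {x // P.Answers x true ∧ fillBits (p (!c) n) x ∈ U} :=
    Nat.card_le_card_of_injective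
      (fun x : {x // (prog P (d + 1) (by omega)).Accepts x ∧ fillBits (p (!c) n) x ∈ U} =>
        (⟨x.1, answers_of_prog x.2.1, x.2.2⟩ :
        {x // P.Answers x true ∧ fillBits (p (!c) n) x ∈ U})) fun x y hxy =>
          Subtype.ext (congrArg
            (fun z : {x // P.Answers x true ∧ fillBits (p (!c) n) x ∈ U} => z.1) hxy)
  have hexp : C * ((2 * E + 2) * (d + 1) + 1) ≤ (6 * C + 1) * (E + 1) * (d + 1) := by
    have h2 : (2 * E + 2) * (d + 1) + 1 ≤ 6 * ((E + 1) * (d + 1)) := by nlinarith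
    calc C * ((2 * E + 2) * (d + 1) + 1) ≤ C * (6 * ((E + 1) * (d + 1))) :=
          Nat.mul_le_mul_left _ h2
      _ = 6 * C * (E + 1) * (d + 1) := by ring
      _ ≤ (6 * C + 1) * (E + 1) * (d + 1) := by gcongr; omega
  calc 2 ^ E * Nat.card {x // P.AcceptsDim d x ∧ fillBits (p c n) x ∈ U}
      ≤ 2 ^ ((2 * E + 2) * (d + 1)) *
          Nat.card {x // (prog P (d + 1) (by omega)).Accepts x ∧ fillBits (p c n) x ∈ U} :=
        Nat.mul_le_mul (Nat.pow_le_pow_right (by norm_num) hEE) hacc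
    _ ≤ _ := h1
    _ ≤ _ := Nat.add_le_add_left (Nat.mul_le_mul (Nat.pow_le_pow_right (by omega) hexp) herr) _

end Pool.Agent.V8H39.TV
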